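import Pool.Agent.Helper15.ZF.Fibre
import Pool.Agent.Helper72.ZC.Gen

/-!
# The push-forward of zero-cycles from a fibre

Let `L / K` be finite and `y` a point of `B (L)`.  The zero-cycles of the fibre `fib X y`, a
projective variety over `L`, are pushed forward to zero-cycles of `X`, and cycles rationally
equivalent to zero go to cycles rationally equivalent to zero.
-/

set_option autoImplicit false

open MvPolynomial

namespace ZC

universe u

section points

variable {K : Type u} [Field K] {n r : ℕ}

theorem coordField_image_of {L M : Type*} [Field L] [Algebra K L] [Field M] [Algebra K M]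
    (s : L →ₐ[K] M) (c : M) (hc : c ≠ 0) {x : Fin (n + 1) → L} {y : Fin (n + 1) → M}
    (h : ∀ i, y i = c * s (x i)) : coordField K y = (coordField K x).map s := by
  rw [coordField, coordField, IntermediateField.adjoin_map]
  congr 1
  ext z
  constructor
  · rintro ⟨a, b, rfl⟩
    refine ⟨x a / x b, ⟨a, b, rfl⟩, ?_⟩
    rw [h, h, mul_div_mul_left _ _ hc, map_div₀]
  · rintro ⟨_, ⟨a, b, rfl⟩, rfl⟩
    refine ⟨a, b, ?_⟩
    rw [h, h, mul_div_mul_left _ _ hc, map_div₀]

theorem exists_ne {L : Type*} [Zero L] {x : Fin (n + 1) → L} (hx : x ≠ 0) : ∃ j, x j ≠ 0 := by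
  by_contra hcon
  push Not at hcon
  exact hx (funext hcon)

/-- The coordinates of a geometric point divided by a nonzero one. -/
noncomputable def nrm {X : ProjVar K n r} (y : GPt X) (i : Fin (n + 1)) : coordField K y.1 :=
  ⟨y.1 i / y.1 (exists_ne y.2.1).choose, IntermediateField.subset_adjoin K _ ⟨i, _, rfl⟩⟩

theorem nrm_isPt {X : ProjVar K n r} (y : GPt X) : X.IsPt (nrm y) := by
  set j := (exists_ne y.2.1).choose with hj
  have hj1 : y.1 j ≠ 0 := (exists_ne y.2.1).choose_spec
  refine ⟨fun h => ?_, fun i => ?_⟩
  · have h1 : y.1 j / y.1 j = 0 := congrArg Subtype.val (congrFun h j)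
    rw [div_self hj1] at h1
    exact one_ne_zero h1
  · apply (algebraMap (coordField K y.1) (AlgebraicClosure K)).injective
    rw [map_zero, ← MvPolynomial.aeval_algebraMap_apply]
    have : (fun i => algebraMap (coordField K y.1) (AlgebraicClosure K) (nrm y i)) =
        fun i => (y.1 j)⁻¹ * y.1 i := by
      funext i
      change y.1 i / y.1 j = _
      rw [div_eq_inv_mul]
    change aeval (fun i => algebraMap (coordField K y.1) (AlgebraicClosure K) (nrm y i))
      (X.form i) = 0
    rw [this, aeval_scale (X.hom i), y.2.2 i, mul_zero]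

theorem nrm_val {X : ProjVar K n r} (y : GPt X) : ∃ c : AlgebraicClosure K, c ≠ 0 ∧
    ∀ i, y.1 i = c * (coordField K y.1).val (nrm y i) := by
  refine ⟨y.1 (exists_ne y.2.1).choose, (exists_ne y.2.1).choose_spec, fun i => ?_⟩
  change y.1 i = _ * (y.1 i / y.1 _)
  rw [mul_div_cancel₀ _ (exists_ne y.2.1).choose_spec]

theorem coordField_nrm {X : ProjVar K n r} (y : GPt X) : coordField K (nrm y) = ⊤ := by
  obtain ⟨c, hc, h⟩ := nrm_val y
  apply IntermediateField.map_injective (coordField K y.1).val
  rw [← AlgHom.fieldRange_eq_map, IntermediateField.fieldRange_val]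
  exact (coordField_image_of (coordField K y.1).val c hc h).symm

/-- A point over the closed point of a geometric point `y` is defined over the residue field of
`y`. -/
theorem exists_emb (X : ProjVar K n r) {L : Type u} [Field L] [Algebra K L]
    [FiniteDimensional K L] (x : Fin (n + 1) → L) (hx : X.IsPt x) (y : GPt X)
    (hxy : closedPt X x hx = Quotient.mk (gSetoid X) y) :
    ∃ (τ : coordField K y.1 →ₐ[K] L) (c : L), c ≠ 0 ∧ ∀ i, x i = c * τ (nrm y i) := by
  obtain ⟨s, c, hc, h⟩ := Quotient.exact hxy.symm
  set lf : L →ₐ[K] AlgebraicClosure K := IsAlgClosed.lift with hlf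
  have h1 : ∀ i, lf (x i) = c * (s : AlgebraicClosure K →ₐ[K] AlgebraicClosure K) (y.1 i) := h
  have e1 : coordField K (fun i => lf (x i)) = (coordField K y.1).map
      (s : AlgebraicClosure K →ₐ[K] AlgebraicClosure K) := coordField_image_of _ c hc h1
  have e2 : coordField K (fun i => lf (x i)) = (coordField K x).map lf :=
    coordField_image_of lf 1 one_ne_zero (fun v => (one_mul _).symm)
  have hmem : ∀ a : coordField K y.1, (((s : AlgebraicClosure K →ₐ[K] AlgebraicClosure K).comp
      (coordField K y.1).val) a) ∈ lf.range := by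
    intro a
    have h2 : s (a : AlgebraicClosure K) ∈ (coordField K y.1).map
        (s : AlgebraicClosure K →ₐ[K] AlgebraicClosure K) := ⟨a, a.2, rfl⟩
    rw [← e1, e2] at h2
    obtain ⟨b, -, hb⟩ := h2
    exact ⟨b, hb⟩
  let τ : coordField K y.1 →ₐ[K] L :=
    ((AlgEquiv.ofInjectiveField lf).symm : lf.range →ₐ[K] L).comp
      (AlgHom.codRestrict ((s : AlgebraicClosure K →ₐ[K] AlgebraicClosure K).comp
        (coordField K y.1).val) lf.range hmem)
  have hτ : ∀ a, lf (τ a) = s (a : AlgebraicClosure K) := by
    intro a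
    have h2 := (AlgEquiv.ofInjectiveField lf).apply_symm_apply
      (AlgHom.codRestrict ((s : AlgebraicClosure K →ₐ[K] AlgebraicClosure K).comp
        (coordField K y.1).val) lf.range hmem a)
    exact congrArg Subtype.val h2
  obtain ⟨c₂, hc₂, h₂⟩ := nrm_val y
  have h3 : ∀ v, lf (x v) = (c * s c₂) * lf (τ (nrm y v)) := by
    intro v
    have h4 := h1 v
    rw [h₂ v] at h4
    rw [h4, hτ, mul_assoc]
    congr 1
    exact map_mul s _ _
  have h0 : c * s c₂ ≠ 0 := mul_ne_zero hc ((_root_.map_ne_zero s).2 hc₂)
  obtain ⟨j, hj⟩ := exists_ne (nrm_isPt y).1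
  have h5 : lf (x j / τ (nrm y j)) = c * s c₂ := by
    have h6 : lf (τ (nrm y j)) ≠ 0 :=
      (_root_.map_ne_zero lf).2 ((_root_.map_ne_zero τ).2 hj)
    rw [map_div₀, h3, mul_div_cancel_right₀ _ h6]
  refine ⟨τ, x j / τ (nrm y j), fun hj' => ?_, fun v => ?_⟩
  · rw [hj', map_zero] at h5
    exact h0 h5.symm
  · have h6 : lf (x v) = lf (x j / τ (nrm y j) * τ (nrm y v)) := by
      rw [map_mul, h5, h3]
    exact lf.injective h6

/-- The degree of `L` over the residue field of a point. -/
theorem finrank_emb {X : ProjVar K n r} {L : Type u} [Field L] [Algebra K L]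
    [FiniteDimensional K L] {x : Fin (n + 1) → L} (y : GPt X)
    (τ : coordField K y.1 →ₐ[K] L) (c : L) (hc : c ≠ 0) (h : ∀ i, x i = c * τ (nrm y i)) :
    (letI := τ.toRingHom.toAlgebra; Module.finrank (coordField K y.1) L) =
      Module.finrank (coordField K x) L := by
  let _ := τ.toRingHom.toAlgebra
  have hfd := coordField_finite y.1
  have : IsScalarTower K (coordField K y.1) L :=
    IsScalarTower.of_algebraMap_eq fun a => (τ.commutes a).symm
  have h1 := coordField_image_of τ c hc h
  have h2 := Module.finrank_mul_finrank K (coordField K y.1) L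
  have h3 := Module.finrank_mul_finrank K (coordField K x) L
  have h4 : Module.finrank K (coordField K x) = Module.finrank K (coordField K y.1) := by
    rw [h1, coordField_nrm]
    rw [← IntermediateField.finrank_top' (F := K) (E := coordField K y.1)]
    exact ((((⊤ : IntermediateField K (coordField K y.1)).equivMap τ).toLinearEquiv.finrank_eq)).symm
  have h6 : 0 < Module.finrank K (coordField K y.1) := Module.finrank_pos
  change Module.finrank (coordField K y.1) L = _
  apply Nat.eq_of_mul_eq_mul_left h6
  rw [h2, ← h3, h4]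

end points

section places

variable {K L E : Type u} [Field K] [Field L] [Field E] [Algebra K L] [Algebra L E] [Algebra K E]
  [IsScalarTower K L E]

/-- A function field over a finite extension `L` of `K` is a function field over `K`. -/
theorem IsCurveField.restrict (K : Type u) {L E : Type u} [Field K] [Field L] [Field E]
    [Algebra K L] [Algebra L E] [Algebra K E] [IsScalarTower K L E] [FiniteDimensional K L]
    (hE : IsCurveField L E) : IsCurveField K E := by
  obtain ⟨t, ht, hfin⟩ := hE
  refine ⟨t, fun h => ht (h.tower_top L), ?_⟩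
  set F := IntermediateField.adjoin K {t} with hF
  let b := Module.finBasis K L
  set S : Set E := Set.range fun i => algebraMap L E (b i) with hS
  have hfinS : Finite S := Set.finite_range _
  have hint : ∀ a : L, IsIntegral F (algebraMap L E a) := fun a =>
    ((Algebra.IsIntegral.isIntegral (R := K) a).algebraMap (B := E)).tower_top
  set F' := IntermediateField.adjoin F S with hF'
  have hfd : FiniteDimensional F F' := by
    apply IntermediateField.finiteDimensional_adjoin
    rintro _ ⟨i, rfl⟩
    exact hint _
  have hL : ∀ a : L, algebraMap L E a ∈ F' := by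
    intro a
    rw [← b.sum_repr a, map_sum]
    refine sum_mem fun i _ => ?_
    rw [Algebra.smul_def, map_mul, ← IsScalarTower.algebraMap_apply K L E]
    refine mul_mem ?_ (IntermediateField.subset_adjoin F S ⟨i, rfl⟩)
    exact F'.algebraMap_mem (algebraMap K F (b.repr a i))
  have hX : t ∈ F' :=
    F'.algebraMap_mem ⟨t, IntermediateField.mem_adjoin_simple_self K _⟩
  have hp : ∀ p : Polynomial L, Polynomial.aeval t p ∈ F' := by
    intro p
    rw [Polynomial.aeval_eq_sum_range]
    refine sum_mem fun i _ => ?_
    rw [Algebra.smul_def]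
    exact mul_mem (hL _) (pow_mem hX i)
  have hle : ∀ e : IntermediateField.adjoin L {t}, (e : E) ∈ F' := by
    rintro ⟨e, he⟩
    rw [IntermediateField.mem_adjoin_simple_iff] at he
    obtain ⟨r, s, rfl⟩ := he
    exact div_mem (hp r) (hp s)
  let φ : IntermediateField.adjoin L {t} →+* F' :=
    (IntermediateField.adjoin L {t}).val.toRingHom.codRestrict F'.toSubring hle
  let _ : Algebra (IntermediateField.adjoin L {t}) F' := φ.toAlgebra
  have : IsScalarTower (IntermediateField.adjoin L {t}) F' E :=
    IsScalarTower.of_algebraMap_eq fun a => rfl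
  have hfin' : Module.Finite F' E :=
    Module.Finite.of_restrictScalars_finite (IntermediateField.adjoin L {t}) F' E
  exact Module.Finite.trans F' E

/-- A place of `E / L` is a place of `E / K`. -/
def Place.restr (K : Type u) {L E : Type u} [Field K] [Field L] [Field E]
    [Algebra K L] [Algebra L E] [Algebra K E] [IsScalarTower K L E] (w : Place L E) :
    Place K E where
  A := w.A
  ne_top := w.ne_top
  mem a := by
    rw [IsScalarTower.algebraMap_apply K L E]
    exact w.mem _

/-- The places of `E / K` are those of `E / L`, for `L / K` algebraic. -/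
def placeEquiv (K L E : Type u) [Field K] [Field L] [Field E]
    [Algebra K L] [Algebra L E] [Algebra K E] [IsScalarTower K L E] [Algebra.IsAlgebraic K L] :
    Place L E ≃ Place K E where
  toFun := Place.restr K
  invFun w := ⟨w.A, w.ne_top, Place.mem_of_algebraic w⟩
  left_inv _ := rfl
  right_inv _ := rfl

theorem Place.restr_ord (w : Place L E) (g : E) : (w.restr K).ord g = w.ord g := rfl

end places

end ZC

namespace ZF

open ZC

universe u

section inc

variable {K : Type u} [Field K] {V ι R : Type} {p : V → ι} {n r : ℕ}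
  {X : MVar K (addBlock n p) (Fin r ⊕ R)} {B : MVar K p R}

/-- The push-forward of a closed point of a fibre. -/
noncomputable def incPt (h : X.IsOver B) {L : Type u} [Field L] [Algebra K L] (y : V → L)
    (hy : B.IsPt y) (P : ZC.ClosedPoint (fib X y)) : ClosedPoint X →₀ ℤ :=
  ptCycle X (Sum.elim (ZC.nrm P.out) fun v => algebraMap L (ZC.coordField L P.out.1) (y v))
    (isPt_of_fib h y hy _ (ZC.nrm_isPt P.out))

/-- The push-forward of zero-cycles of a fibre. -/
noncomputable def incZ (h : X.IsOver B) {L : Type u} [Field L] [Algebra K L] (y : V → L)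
    (hy : B.IsPt y) : (ZC.ClosedPoint (fib X y) →₀ ℤ) →+ (ClosedPoint X →₀ ℤ) :=
  linExt (incPt h y hy)

theorem incZ_ptCycle (h : X.IsOver B) {L : Type u} [Field L] [Algebra K L]
    [FiniteDimensional K L] (y : V → L) (hy : B.IsPt y) {M : Type u} [Field M] [Algebra L M]
    [Algebra K M] [IsScalarTower K L M] [FiniteDimensional L M] (x : Fin (n + 1) → M)
    (hx : (fib X y).IsPt x) :
    incZ h y hy (ZC.ptCycle (fib X y) x hx) =
      ptCycle X (Sum.elim x fun v => algebraMap L M (y v)) (isPt_of_fib h y hy x hx) := by
  have halg : Algebra.IsAlgebraic L M := inferInstance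
  set P := ZC.closedPt (fib X y) x hx with hP
  obtain ⟨τ, c, hc, hτ⟩ := ZC.exists_emb (fib X y) x hx P.out (Quotient.out_eq P).symm
  have hfd := ZC.coordField_finite (K := L) P.out.1
  have hfd' : FiniteDimensional K (ZC.coordField L P.out.1) := FiniteDimensional.trans K L _
  have hfd'' : FiniteDimensional K M := FiniteDimensional.trans K L M
  have h1 : X.IsPt (Sum.elim (ZC.nrm P.out) fun v =>
      algebraMap L (ZC.coordField L P.out.1) (y v)) :=
    isPt_of_fib h y hy _ (ZC.nrm_isPt P.out)
  have e1 := ptCycle_tower X (τ.restrictScalars K) h1 (isPt_comp X (τ.restrictScalars K) h1)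
  have e2 : ptCycle X (fun v => (τ.restrictScalars K) (Sum.elim (ZC.nrm P.out) (fun v =>
      algebraMap L (ZC.coordField L P.out.1) (y v)) v)) (isPt_comp X (τ.restrictScalars K) h1) =
      ptCycle X (Sum.elim x fun v => algebraMap L M (y v)) (isPt_of_fib h y hy x hx) := by
    refine ptCycle_congr X AlgEquiv.refl (fun j => Option.elim j c fun _ => 1) (fun j => ?_) _ _
      fun v => ?_
    · rcases j with _ | j
      · exact hc
      · exact one_ne_zero
    · rcases v with v | v
      · exact hτ v
      · change algebraMap L M (y v) = 1 * τ (algebraMap L (ZC.coordField L P.out.1) (y v))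
        rw [one_mul, τ.commutes]
  have e3 := ZC.finrank_emb (K := L) P.out τ c hc hτ
  rw [ZC.ptCycle, dif_pos halg, incZ, linExt_single, ← e2, e1, ← e3]
  rfl

end inc

section chow

variable {K : Type u} [Field K] {V ι R : Type} [Finite V] {p : V → ι} {n r : ℕ}
  {X : MVar K (addBlock n p) (Fin r ⊕ R)} {B : MVar K p R}

theorem incZ_red (h : X.IsOver B) {L : Type u} [Field L] [Algebra K L] [FiniteDimensional K L]
    (y : V → L) (hy : B.IsPt y) {E : Type u} [Field E] [Algebra L E] [Algebra K E]
    [IsScalarTower K L E] (w : Place L E) [FiniteDimensional L w.res] (x : Fin (n + 1) → E)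
    (hx : (fib X y).IsPt x) :
    incZ h y hy (ZC.ptCycle (fib X y) (ZC.red w x hx.1) (ZC.red_isPt (fib X y) w x hx)) =
      ptCycle X (red (w.restr K) (addBlock n p) (Sum.elim x fun v => algebraMap L E (y v))
        (isPt_of_fib h y hy x hx).1) (red_isPt X (w.restr K) _ (isPt_of_fib h y hy x hx)) := by
  let iA : Algebra K w.res := (inferInstance : Algebra K (w.restr K).res)
  have hT : IsScalarTower K L w.res := IsScalarTower.of_algebraMap_eq fun a => by
    change IsLocalRing.residue w.A _ = IsLocalRing.residue w.A _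
    congr 1
    apply Subtype.ext
    exact IsScalarTower.algebraMap_apply K L E a
  rw [incZ_ptCycle h y hy (M := w.res)]
  set j := (ZC.exists_max w x hx.1).choose with hj
  have hj1 : x j ≠ 0 := (ZC.exists_max w x hx.1).choose_spec.1
  have hj2 : ∀ i, x i / x j ∈ w.A := (ZC.exists_max w x hx.1).choose_spec.2
  let emL : L →+* w.A := (algebraMap L E).codRestrict w.A.toSubring w.mem
  obtain ⟨c, hc, h1⟩ := red_eq (w.restr K) (Sum.elim x fun v => algebraMap L E (y v))
    (isPt_of_fib h y hy x hx).1 (fun i => Option.elim i (x j) fun _ => 1)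
    (Sum.elim (fun i => (⟨x i / x j, hj2 i⟩ : w.A)) fun v => emL (y v))
    (by
      rintro (i | v)
      · exact (mul_div_cancel₀ _ hj1).symm
      · exact (one_mul _).symm)
    (by
      rintro (_ | i)
      · refine ⟨Sum.inl j, rfl, ?_⟩
        have : (⟨x j / x j, hj2 j⟩ : w.A) = 1 := Subtype.ext (div_self hj1)
        change IsUnit (⟨x j / x j, hj2 j⟩ : w.A)
        rw [this]
        exact isUnit_one
      · obtain ⟨v, hv, h0⟩ := hy.1 i
        exact ⟨Sum.inr v, congrArg some hv, (IsUnit.mk0 _ h0).map emL⟩)
  refine ptCycle_congr X (AlgEquiv.refl : w.res ≃ₐ[K] w.res) c hc _ _ fun v => ?_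
  rw [h1 v]
  rcases v with i | v
  · rfl
  · rfl

theorem incZ_curveCycle (h : X.IsOver B) {L : Type u} [Field L] [Algebra K L]
    [FiniteDimensional K L] (y : V → L) (hy : B.IsPt y) {E : Type u} [Field E] [Algebra L E]
    [Algebra K E] [IsScalarTower K L E] (hE : IsCurveField L E) (x : Fin (n + 1) → E)
    (hx : (fib X y).IsPt x) (g : E) :
    incZ h y hy (ZC.curveCycle (fib X y) x hx g) =
      curveCycle X (Sum.elim x fun v => algebraMap L E (y v)) (isPt_of_fib h y hy x hx) g := by
  rw [ZC.curveCycle, curveCycle, AddMonoidHom.map_finsum _ (finite_support hE g _),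
    ← finsum_comp_equiv (placeEquiv K L E)]
  refine finsum_congr fun w => ?_
  have := Place.finite_residue hE w
  rw [map_zsmul, incZ_red h y hy w x hx]
  rfl

/-- Cycles of a fibre which are rationally equivalent to zero are rationally equivalent to zero
on `X`. -/
theorem ratEquiv_le_inc (h : X.IsOver B) {L : Type u} [Field L] [Algebra K L]
    [FiniteDimensional K L] (y : V → L) (hy : B.IsPt y) :
    ZC.ratEquiv (fib X y) ≤ (ratEquiv X).comap (incZ h y hy) := by
  rw [ZC.ratEquiv, AddSubgroup.closure_le]
  rintro c ⟨E, iF, iA, hE, x, hx, g, hg, rfl⟩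
  let _ : Algebra K E := ((algebraMap L E).comp (algebraMap K L)).toAlgebra
  have : IsScalarTower K L E := IsScalarTower.of_algebraMap_eq fun a => rfl
  exact AddSubgroup.subset_closure ⟨E, iF, _, IsCurveField.restrict K hE, _,
    isPt_of_fib h y hy x hx, g, hg, incZ_curveCycle h y hy hE x hx g⟩

/-- **Two points of a fibre which are rationally equivalent on the fibre are rationally equivalent
on `X`.** -/
theorem fib_incl (h : X.IsOver B) {L : Type u} [Field L] [Algebra K L]
    [FiniteDimensional K L] (x x' : Fin (n + 1) → L) (y : V → L)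
    (hx : X.IsPt (Sum.elim x y)) (hx' : X.IsPt (Sum.elim x' y))
    (heq : ZC.ptCycle (fib X y) x (fib_isPt hx) - ZC.ptCycle (fib X y) x' (fib_isPt hx') ∈
      ZC.ratEquiv (fib X y)) :
    ptCycle X (Sum.elim x y) hx - ptCycle X (Sum.elim x' y) hx' ∈ ratEquiv X := by
  have hy : B.IsPt y := h.isPt hx
  have h1 := ratEquiv_le_inc h y hy heq
  rw [AddSubgroup.mem_comap, map_sub, incZ_ptCycle, incZ_ptCycle] at h1
  exact h1

end chow

end ZF
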