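import Pool.Agent.Helper91.ZF.Quads
import Pool.Agent.Helper33.ZC.Exist
import Pool.Agent.Helper15.ZF.LowDeg

/-!
# Norms for systems of forms

One form `f₀` and forms `F_j` of low degree: two points `x`, `x'` on all `F_j = 0` with
`f₀ (x) = g f₀ (x')` are joined by two lines on which all `F_j` vanish.
-/

set_option autoImplicit false

open Polynomial ZC Pool.Agent.Helper91.ZC

namespace ZF

universe u

section lines

variable {E : Type u} [Field E] {N : ℕ} {ι : Type} {f : ι → MvPolynomial (Fin N) E} {S : Set E}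

/-- A line on which all forms but one vanish. -/
theorem NormSet.of_pencil (hS : NormSet f S) (i₀ : ι) {x z : Fin N → E}
    (hxz : x ∉ Submodule.span E {z}) (h : ∀ j, j ≠ i₀ → onLine x z (f j) = 0)
    (h0 : (onLine x z (f i₀)).coeff 0 ≠ 0) (u : E) (hu : u ≠ 0) :
    (onLine x z (f i₀)).coeff 0 /
      ((onLine x z (f i₀)).leadingCoeff * u ^ (onLine x z (f i₀)).natDegree) ∈ S := by
  set P := onLine x z (f i₀) with hP
  have hnd : (C u * X : E[X]).natDegree ≠ 0 := by
    rw [natDegree_C_mul_X u hu]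
    exact one_ne_zero
  have hc : (P.comp (C u * X)).coeff 0 = P.coeff 0 := by
    rw [coeff_zero_eq_eval_zero, eval_comp, coeff_zero_eq_eval_zero]
    simp
  have h1 := hS.poly (P.comp (C u * X)) (by rw [hc]; exact h0) fun M _ _ _ t ht => by
    refine ⟨fun k => algebraMap E M (x k) + algebraMap E M u * t * algebraMap E M (z k), ?_,
      fun j => ?_⟩
    · have h4 : x ∉ Submodule.span E {z, z} := by rwa [Set.pair_eq_singleton]
      have h5 := comb_ne_zero h4 (algebraMap E M u * t) (0 : M)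
      convert h5 using 2 with k
      rw [one_mul, zero_mul, add_zero]
    · rw [aeval_onLine x z (f j) (algebraMap E M u * t)]
      by_cases hj : j = i₀
      · subst hj
        rw [aeval_comp, map_mul, aeval_C, aeval_X] at ht
        exact ht
      · rw [h j hj, map_zero]
  rwa [hc, leadingCoeff_comp hnd, leadingCoeff_C_mul_X] at h1

variable {d : ι → ℕ} (hf : ∀ i, (f i).IsHomogeneous (d i))

include hf in
/-- A line on which all forms but one vanish, with independent points. -/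
theorem NormSet.of_two_points (hS : NormSet f S) (i₀ : ι) {x z : Fin N → E}
    (hxz : x ∉ Submodule.span E {z}) (h : ∀ j, j ≠ i₀ → onLine x z (f j) = 0)
    (hx : MvPolynomial.eval x (f i₀) ≠ 0) (hz : MvPolynomial.eval z (f i₀) ≠ 0) :
    MvPolynomial.eval x (f i₀) / MvPolynomial.eval z (f i₀) ∈ S ∧
      ∀ u : E, u ≠ 0 → u ^ d i₀ ∈ S := by
  obtain ⟨h1, h2, h3⟩ := onLine_facts (hf i₀) x z
  have hnd : (onLine x z (f i₀)).natDegree = d i₀ :=
    le_antisymm h1 (le_natDegree_of_ne_zero (by rw [h2]; exact hz))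
  have hlc : (onLine x z (f i₀)).leadingCoeff = MvPolynomial.eval z (f i₀) := by
    rw [leadingCoeff, hnd, h2]
  have key : ∀ u : E, u ≠ 0 → MvPolynomial.eval x (f i₀) /
      (MvPolynomial.eval z (f i₀) * u ^ d i₀) ∈ S := by
    intro u hu
    have h4 := hS.of_pencil i₀ hxz h (by rw [h3]; exact hx) u hu
    rwa [h3, hlc, hnd] at h4
  have h5 := key 1 one_ne_zero
  rw [one_pow, mul_one] at h5
  refine ⟨h5, fun u hu => ?_⟩
  have h6 := hS.mul _ _ h5 (hS.inv _ (key u hu))
  have h7 : MvPolynomial.eval x (f i₀) / MvPolynomial.eval z (f i₀) *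
      (MvPolynomial.eval x (f i₀) / (MvPolynomial.eval z (f i₀) * u ^ d i₀))⁻¹ = u ^ d i₀ := by
    have := pow_ne_zero (d i₀) hu
    field_simp
  rwa [h7] at h6

include hf in
/-- A line on which all forms but one vanish. -/
theorem NormSet.of_ratio (hS : NormSet f S) (i₀ : ι) {x z : Fin N → E} (hx0 : x ≠ 0)
    (hpow : ∀ u : E, u ≠ 0 → u ^ d i₀ ∈ S) (h : ∀ j, j ≠ i₀ → onLine x z (f j) = 0)
    (hx : MvPolynomial.eval x (f i₀) ≠ 0) (hz : MvPolynomial.eval z (f i₀) ≠ 0) :
    MvPolynomial.eval x (f i₀) / MvPolynomial.eval z (f i₀) ∈ S := by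
  by_cases hxz : x ∈ Submodule.span E {z}
  · obtain ⟨a, rfl⟩ := Submodule.mem_span_singleton.1 hxz
    have ha : a ≠ 0 := by
      rintro rfl
      exact hx0 (zero_smul _ _)
    have h1 : MvPolynomial.eval (a • z) (f i₀) = a ^ d i₀ * MvPolynomial.eval z (f i₀) :=
      eval_smul (hf i₀) a z
    rw [h1, mul_div_cancel_right₀ _ hz]
    exact hpow a ha
  · exact (hS.of_two_points hf i₀ hxz h hx hz).1

/-- A line on which a form vanishes. -/
theorem onLine_eq_zero {g : MvPolynomial (Fin N) E} {e : ℕ} (hg : g.IsHomogeneous e)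
    {x z : Fin N → E} (hx : MvPolynomial.eval x g = 0) (hz : MvPolynomial.eval z g = 0)
    (h : ∀ k : Fin (e - 1), MvPolynomial.eval z ((genLine x g).coeff (k + 1)) = 0) :
    onLine x z g = 0 := by
  obtain ⟨h1, h2, h3⟩ := onLine_facts hg x z
  ext j
  rw [coeff_zero]
  rcases j with _ | j
  · rw [h3, hx]
  · by_cases hj : j < e - 1
    · have h4 := h ⟨j, hj⟩
      rw [← map_genLine, coeff_map]
      exact h4
    · by_cases hj' : j + 1 = e
      · rw [hj', h2, hz]
      · exact coeff_eq_zero_of_natDegree_lt (by omega)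

end lines

section split

variable {E : Type u} [Field E]

theorem sum_cubes (e : ℕ) (he : 0 < e) :
    ∑ k ∈ Finset.range e, k ^ 3 = ∑ k : Fin (e - 1), ((k : ℕ) + 1) ^ 3 := by
  obtain ⟨e, rfl⟩ : ∃ e', e = e' + 1 := ⟨e - 1, by omega⟩
  rw [Finset.sum_range_succ', Nat.add_sub_cancel, Finset.sum_range]
  simp

/-- **Norms for one form and forms of low degree.** -/
theorem NormSet.of_split (hE : HasC 3 E) {n r : ℕ} (d : Fin r → ℕ) (hd : ∀ i, 0 < d i)
    (i₀ : Fin r) (h2 : 2 ≤ d i₀)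
    (h1 : d i₀ ^ 3 + 2 * ∑ j ∈ Finset.univ.erase i₀, d j ^ 3 ≤ 2 * n + 1)
    (h3 : ∑ j ∈ Finset.univ.erase i₀, (d j ^ 3 + 2 * ∑ k ∈ Finset.range (d j), k ^ 3) ≤ n)
    (f : Fin r → MvPolynomial (Fin (n + 1)) E) (hf : ∀ i, (f i).IsHomogeneous (d i))
    {S : Set E} (hS : NormSet f S) (g : E) (hg : g ≠ 0) : g ∈ S := by
  classical
  by_cases hpt : ∃ x : Fin (n + 1) → E, x ≠ 0 ∧ ∀ i, MvPolynomial.aeval x (f i) = 0
  · obtain ⟨x, hx, h⟩ := hpt
    exact hS.of_point hx h g hg
  have hpt' : ∀ x : Fin (n + 1) → E, x ≠ 0 → (∀ j, j ≠ i₀ → MvPolynomial.eval x (f j) = 0) →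
      MvPolynomial.eval x (f i₀) ≠ 0 := by
    intro x hx h h0
    refine hpt ⟨x, hx, fun i => ?_⟩
    rw [MvPolynomial.aeval_eq_eval]
    by_cases hi : i = i₀
    · rw [hi]
      exact h0
    · exact h i hi
  have hsub : ∀ F : Fin r → ℕ, ∑ j ∈ Finset.univ.erase i₀, F j = ∑ j : {j // j ≠ i₀}, F j := by
    intro F
    exact Finset.sum_subtype _ (fun j => by simp) F
  rw [hsub] at h1 h3
  have h3' : ∑ j : {j // j ≠ i₀}, d j ^ 3 +
      2 * ∑ j : {j // j ≠ i₀}, ∑ k : Fin (d j - 1), ((k : ℕ) + 1) ^ 3 ≤ n := by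
    rw [Finset.mul_sum, ← Finset.sum_add_distrib]
    refine le_trans (le_of_eq (Finset.sum_congr rfl fun j _ => ?_)) h3
    rw [sum_cubes _ (hd j)]
  -- the two points
  obtain ⟨y, hy0, hy⟩ := hE (Unit ⊕ ({j : Fin r // j ≠ i₀} ⊕ {j : Fin r // j ≠ i₀}))
    (Fin (n + 1) ⊕ Fin (n + 1))
    (Sum.elim (fun _ => MvPolynomial.rename Sum.inl (f i₀) -
      MvPolynomial.C g * MvPolynomial.rename Sum.inr (f i₀))
      (Sum.elim (fun j => MvPolynomial.rename Sum.inl (f j))
        (fun j => MvPolynomial.rename Sum.inr (f j))))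
    (Sum.elim (fun _ => d i₀) (Sum.elim (fun j => d j) (fun j => d j)))
    (by
      rintro (q | q | q)
      · refine ((hf i₀).rename_isHomogeneous).sub ?_
        have h4 := (MvPolynomial.isHomogeneous_C (Fin (n + 1) ⊕ Fin (n + 1)) g).mul
          ((hf i₀).rename_isHomogeneous
            (f := (Sum.inr : Fin (n + 1) → Fin (n + 1) ⊕ Fin (n + 1))))
        rwa [zero_add] at h4
      · exact (hf _).rename_isHomogeneous
      · exact (hf _).rename_isHomogeneous)
    (by
      rintro (q | q | q)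
      · exact hd _
      · exact hd _
      · exact hd _)
    (by
      simp only [Fintype.sum_sum_type, Sum.elim_inl, Sum.elim_inr, Finset.univ_unique,
        Finset.sum_singleton, Fintype.card_sum, Fintype.card_fin]
      omega)
  set x : Fin (n + 1) → E := fun k => y (Sum.inl k) with hx
  set w : Fin (n + 1) → E := fun k => y (Sum.inr k) with hw
  have hxw : MvPolynomial.eval x (f i₀) = g * MvPolynomial.eval w (f i₀) := by
    have h4 := hy (Sum.inl ())
    rw [Sum.elim_inl, map_sub, map_mul, MvPolynomial.eval_C, MvPolynomial.eval_rename,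
      MvPolynomial.eval_rename, sub_eq_zero] at h4
    exact h4
  have hxj : ∀ j, j ≠ i₀ → MvPolynomial.eval x (f j) = 0 := by
    intro j hj
    have h4 := hy (Sum.inr (Sum.inl ⟨j, hj⟩))
    rw [Sum.elim_inr, Sum.elim_inl, MvPolynomial.eval_rename] at h4
    exact h4
  have hwj : ∀ j, j ≠ i₀ → MvPolynomial.eval w (f j) = 0 := by
    intro j hj
    have h4 := hy (Sum.inr (Sum.inr ⟨j, hj⟩))
    rw [Sum.elim_inr, Sum.elim_inr, MvPolynomial.eval_rename] at h4
    exact h4
  have hz0 : MvPolynomial.eval 0 (f i₀) = 0 := by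
    have h4 := eval_smul (hf i₀) (0 : E) 0
    rw [smul_zero, zero_pow (hd i₀).ne', zero_mul] at h4
    exact h4
  have hw0 : w ≠ 0 := by
    intro h0
    have hx0 : x ≠ 0 := by
      intro h4
      apply hy0
      funext k
      rcases k with k | k
      · exact congrFun h4 k
      · exact congrFun h0 k
    apply hpt' x hx0 hxj
    rw [hxw, h0, hz0, mul_zero]
  have hw1 := hpt' w hw0 hwj
  have hx1 : MvPolynomial.eval x (f i₀) ≠ 0 := by
    rw [hxw]
    exact mul_ne_zero hg hw1
  have hx0 : x ≠ 0 := by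
    intro h0
    apply hx1
    rw [h0]
    exact hz0
  -- powers
  have hpow : ∀ u : E, u ≠ 0 → u ^ d i₀ ∈ S := by
    obtain ⟨k₀, hk₀⟩ := Function.ne_iff.1 hx0
    obtain ⟨v, hv0, hv⟩ := hE (Unit ⊕ ({j : Fin r // j ≠ i₀} ⊕
      (Σ j : {j : Fin r // j ≠ i₀}, Fin (d j - 1)))) (Fin (n + 1))
      (Sum.elim (fun _ => MvPolynomial.X k₀) (Sum.elim (fun j => f j)
        (fun q => (genLine x (f q.1)).coeff ((q.2 : ℕ) + 1))))
      (Sum.elim (fun _ => 1) (Sum.elim (fun j => d j) (fun q => (q.2 : ℕ) + 1)))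
      (by
        rintro (q | q | q)
        · exact MvPolynomial.isHomogeneous_X _ _
        · exact hf _
        · exact graded_genLine _ _ _)
      (by
        rintro (q | q | q)
        · exact Nat.one_pos
        · exact hd _
        · exact Nat.succ_pos _)
      (by
        simp only [Fintype.sum_sum_type, Sum.elim_inl, Sum.elim_inr, Finset.univ_unique,
          Finset.sum_singleton, Fintype.card_fin, Fintype.sum_sigma, one_pow]
        by_cases hall : ∀ j : {j : Fin r // j ≠ i₀}, d j = 1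
        · have e1 : ∀ j : {j : Fin r // j ≠ i₀},
              ∑ k : Fin (d j - 1), ((k : ℕ) + 1) ^ 3 = 0 := by
            intro j
            have h4 : IsEmpty (Fin (d j - 1)) := by
              rw [hall j]
              exact Fin.isEmpty
            exact Finset.sum_of_isEmpty _
          simp only [e1, Finset.sum_const_zero]
          have e2 : 2 ^ 3 ≤ d i₀ ^ 3 := Nat.pow_le_pow_left h2 3
          omega
        · push Not at hall
          obtain ⟨j, hj⟩ := hall
          have h4 : 1 ≤ ∑ k : Fin (d j - 1), ((k : ℕ) + 1) ^ 3 := by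
            have h5 : 0 < d j - 1 := by
              have := hd j
              omega
            refine le_trans ?_ (Finset.single_le_sum (fun _ _ => Nat.zero_le _)
              (Finset.mem_univ (⟨0, h5⟩ : Fin (d j - 1))))
            exact Nat.one_le_pow _ _ (Nat.succ_pos _)
          have h5 : ∑ k : Fin (d j - 1), ((k : ℕ) + 1) ^ 3 ≤
              ∑ j : {j : Fin r // j ≠ i₀}, ∑ k : Fin (d j - 1), ((k : ℕ) + 1) ^ 3 :=
            Finset.single_le_sum (f := fun j : {j : Fin r // j ≠ i₀} =>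
              ∑ k : Fin (d j - 1), ((k : ℕ) + 1) ^ 3) (fun _ _ => Nat.zero_le _)
              (Finset.mem_univ j)
          omega)
    have hvk : v k₀ = 0 := by
      have h4 := hv (Sum.inl ())
      rwa [Sum.elim_inl, MvPolynomial.eval_X] at h4
    have hvj : ∀ j, j ≠ i₀ → MvPolynomial.eval v (f j) = 0 := fun j hj =>
      hv (Sum.inr (Sum.inl ⟨j, hj⟩))
    have hxv : x ∉ Submodule.span E {v} := by
      intro h0
      obtain ⟨a, ha⟩ := Submodule.mem_span_singleton.1 h0
      apply hk₀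
      rw [← ha, Pi.smul_apply, hvk, smul_zero]
      rfl
    exact (hS.of_two_points hf i₀ hxv (fun j hj => onLine_eq_zero (hf j) (hxj j hj) (hvj j hj)
      fun k => hv (Sum.inr (Sum.inr ⟨⟨j, hj⟩, k⟩))) hx1 (hpt' v hv0 hvj)).2
  -- the third point
  obtain ⟨z, hz0, hz⟩ := hE ({j : Fin r // j ≠ i₀} ⊕
    ((Σ j : {j : Fin r // j ≠ i₀}, Fin (d j - 1)) ⊕
      (Σ j : {j : Fin r // j ≠ i₀}, Fin (d j - 1)))) (Fin (n + 1))
    (Sum.elim (fun j => f j) (Sum.elim (fun q => (genLine x (f q.1)).coeff ((q.2 : ℕ) + 1))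
      (fun q => (genLine w (f q.1)).coeff ((q.2 : ℕ) + 1))))
    (Sum.elim (fun j => d j) (Sum.elim (fun q => (q.2 : ℕ) + 1) (fun q => (q.2 : ℕ) + 1)))
    (by
      rintro (q | q | q)
      · exact hf _
      · exact graded_genLine _ _ _
      · exact graded_genLine _ _ _)
    (by
      rintro (q | q | q)
      · exact hd _
      · exact Nat.succ_pos _
      · exact Nat.succ_pos _)
    (by
      simp only [Fintype.sum_sum_type, Sum.elim_inl, Sum.elim_inr, Fintype.card_fin,
        Fintype.sum_sigma]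
      omega)
  have hzj : ∀ j, j ≠ i₀ → MvPolynomial.eval z (f j) = 0 := fun j hj => hz (Sum.inl ⟨j, hj⟩)
  have hz1 := hpt' z hz0 hzj
  have e1 := hS.of_ratio hf i₀ hx0 hpow (fun j hj => onLine_eq_zero (hf j) (hxj j hj) (hzj j hj)
    fun k => hz (Sum.inr (Sum.inl ⟨⟨j, hj⟩, k⟩))) hx1 hz1
  have e2 := hS.of_ratio hf i₀ hw0 hpow (fun j hj => onLine_eq_zero (hf j) (hwj j hj) (hzj j hj)
    fun k => hz (Sum.inr (Sum.inr ⟨⟨j, hj⟩, k⟩))) hw1 hz1
  have e3 := hS.mul _ _ e1 (hS.inv _ e2)
  have e4 : MvPolynomial.eval x (f i₀) / MvPolynomial.eval z (f i₀) *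
      (MvPolynomial.eval w (f i₀) / MvPolynomial.eval z (f i₀))⁻¹ = g := by
    rw [hxw]
    field_simp
  rwa [e4] at e3

/-- **Norms for systems of forms of low degree.** -/
theorem NormSet.of_liftDeg (hE : HasC 3 E) (hns : ∃ h : E, ¬ IsSquare h) {n r : ℕ}
    {d : Fin r → ℕ} (hd : ∀ i, 0 < d i) (h : LiftDeg n d)
    (f : Fin r → MvPolynomial (Fin (n + 1)) E) (hf : ∀ i, (f i).IsHomogeneous (d i))
    {S : Set E} (hS : NormSet f S) (g : E) (hg : g ≠ 0) : g ∈ S := by
  rcases h with h | ⟨i₀, h1, h2, h3⟩ | ⟨h1, h2, h3⟩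
  · obtain ⟨x, hx0, hx⟩ := hE (Fin r) (Fin (n + 1)) f d hf hd
      (by rw [Fintype.card_fin]; exact Nat.lt_succ_of_le h)
    exact hS.of_point hx0 (fun i => by rw [MvPolynomial.aeval_eq_eval]; exact hx i) g hg
  · exact hS.of_split hE d hd i₀ h1 h2 h3 f hf g hg
  · exact hS.of_quads hE hns h2 h3 f (fun i => by rw [← h1 i]; exact hf i) g hg

end split

end ZF
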