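import Pool.Agent.Helper72.ZC.Final

/-!
# Systems of forms over `Cⱼ` fields

`HasCI j K`: a system of forms of positive degrees `eᵢ` in more than `∑ eᵢ ^ j` variables over `K`
has a nontrivial common zero. The property goes up from `j` to `j + 1` for function fields of one
variable (Lang, Nagata).
-/

set_option autoImplicit false

open MvPolynomial

namespace Pool.Agent.Helper91.ZC

/-- systems of forms of degrees `eᵢ ≥ 1` in more than `∑ eᵢ ^ j` variables have a common zero -/
def HasCI (j : ℕ) (K : Type*) [Field K] : Prop :=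
  ∀ (ι σ : Type) [Fintype ι] [Fintype σ] (f : ι → MvPolynomial σ K) (e : ι → ℕ),
    (∀ i, (f i).IsHomogeneous (e i)) → (∀ i, 0 < e i) → ∑ i, e i ^ j < Fintype.card σ →
    ∃ x : σ → K, x ≠ 0 ∧ ∀ i, eval x (f i) = 0

theorem hasCI_iff {j : ℕ} {K : Type*} [Field K] : HasCI j K ↔
    ∀ (N r : ℕ) (e : Fin r → ℕ) (f : Fin r → MvPolynomial (Fin N) K),
    (∀ i, (f i).IsHomogeneous (e i)) → (∀ i, 0 < e i) → ∑ i, e i ^ j < N →
    ∃ x : Fin N → K, x ≠ 0 ∧ ∀ i, eval x (f i) = 0 := by
  constructor
  · intro h N r e f hf he hN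
    exact h (Fin r) (Fin N) f e hf he (by rwa [Fintype.card_fin])
  · intro h ι σ _ _ f e hf he hN
    classical
    let a := Fintype.equivFin ι
    let b := Fintype.equivFin σ
    obtain ⟨x, hx0, hx⟩ := h (Fintype.card σ) (Fintype.card ι) (fun i => e (a.symm i))
      (fun i => rename b (f (a.symm i))) (fun i => (hf _).rename_isHomogeneous) (fun i => he _)
      (by rw [a.symm.sum_comp (fun i => e i ^ j)]; exact hN)
    refine ⟨fun s => x (b s), fun h0 => hx0 ?_, fun i => ?_⟩
    · funext t
      have := congrFun h0 (b.symm t)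
      simpa using this
    · have h1 := hx (a i)
      rw [eval_rename, Equiv.symm_apply_apply] at h1
      exact h1

section poly

variable {F : Type*} {σ : Type} [Field F]

/-- systems of forms over `F[t]` -/
theorem HasCI.exists_zero_poly {n : ℕ} (hF : HasCI n F) [Fintype σ] {ι : Type} [Fintype ι]
    (f : ι → MvPolynomial σ (Polynomial F)) (e : ι → ℕ) (hf : ∀ i, (f i).IsHomogeneous (e i))
    (he : ∀ i, 0 < e i) (hN : ∑ i, e i ^ (n + 1) < Fintype.card σ) :
    ∃ x : σ → Polynomial F, x ≠ 0 ∧ ∀ i, eval x (f i) = 0 := by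
  classical
  -- a bound for the degrees of the coefficients
  obtain ⟨h, hh⟩ : ∃ h : ℕ, ∀ i, ∀ d ∈ (f i).support, ((f i).coeff d).natDegree ≤ h := by
    refine ⟨∑ i, ∑ d ∈ (f i).support, ((f i).coeff d).natDegree, fun i d hd => ?_⟩
    exact (Finset.single_le_sum (f := fun d => ((f i).coeff d).natDegree)
      (fun _ _ => Nat.zero_le _) hd).trans
      (Finset.single_le_sum (f := fun i => ∑ d ∈ (f i).support, ((f i).coeff d).natDegree)
        (fun _ _ => Nat.zero_le _) (Finset.mem_univ i))
  set M : ℕ := (h + 1) * ∑ i, e i ^ n with hM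
  let G : (Σ i : ι, Fin (e i * M + h + 1)) → MvPolynomial (σ × Fin (M + 1)) F := fun q =>
    (subst M (f q.1)).coeff q.2
  have hG : ∀ q, (G q).IsHomogeneous (e q.1) := fun q => homCoeff_subst M (hf q.1) _
  have hsum : ∑ q : (Σ i : ι, Fin (e i * M + h + 1)), e q.1 ^ n <
      Fintype.card (σ × Fin (M + 1)) := by
    calc ∑ q : (Σ i : ι, Fin (e i * M + h + 1)), e q.1 ^ n
        = ∑ i, (e i * M + h + 1) * e i ^ n := by
          rw [Fintype.sum_sigma]
          refine Finset.sum_congr rfl fun i _ => ?_
          simp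
      _ = (∑ i, e i ^ (n + 1)) * M + (h + 1) * ∑ i, e i ^ n := by
          rw [Finset.sum_mul, Finset.mul_sum, ← Finset.sum_add_distrib]
          refine Finset.sum_congr rfl fun i _ => ?_
          ring
      _ = (∑ i, e i ^ (n + 1) + 1) * M := by
          rw [← hM]
          ring
      _ ≤ Fintype.card σ * M := Nat.mul_le_mul_right _ hN
      _ < Fintype.card (σ × Fin (M + 1)) := by
          rw [Fintype.card_prod, Fintype.card_fin]
          have : 0 < Fintype.card σ := by omega
          nlinarith
  obtain ⟨a, ha0, ha⟩ := hF _ _ G (fun q => e q.1) hG (fun q => he q.1) hsum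
  refine ⟨fun s => ∑ l : Fin (M + 1), Polynomial.C (a (s, l)) * Polynomial.X ^ (l : ℕ), ?_, ?_⟩
  · intro hx
    apply ha0
    funext ⟨s, l⟩
    have h1 := congrArg (fun P : Polynomial F => P.coeff l) (congrFun hx s)
    simp only [Polynomial.finsetSum_coeff, Polynomial.coeff_C_mul_X_pow, Pi.zero_apply,
      Polynomial.coeff_zero] at h1
    rw [Finset.sum_eq_single l] at h1
    · simpa using h1
    · intro l' _ hl'
      rw [if_neg fun h => hl' (Fin.ext h.symm)]
    · intro h
      exact absurd (Finset.mem_univ _) h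
  · intro i
    rw [← map_subst]
    ext k
    rw [Polynomial.coeff_map, Polynomial.coeff_zero]
    by_cases hk : k < e i * M + h + 1
    · exact ha ⟨i, ⟨k, hk⟩⟩
    · rw [Polynomial.coeff_eq_zero_of_natDegree_lt, map_zero]
      have := natDegree_subst M (hf i) h (hh i)
      omega

/-- the field `F(t)` -/
theorem HasCI.fractionRing {n : ℕ} (hF : HasCI n F) (K : Type*) [Field K] [Algebra (Polynomial F) K]
    [IsFractionRing (Polynomial F) K] : HasCI (n + 1) K := by
  classical
  intro ι σ _ _ f e hf he hN
  -- clear the denominators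
  have h1 : ∀ i, ∃ (b : Polynomial F) (g : MvPolynomial σ (Polynomial F)), b ≠ 0 ∧
      g.IsHomogeneous (e i) ∧ map (algebraMap (Polynomial F) K) g =
        C (algebraMap (Polynomial F) K b) * f i := by
    intro i
    obtain ⟨b, hb⟩ := IsLocalization.exist_integer_multiples_of_finset
      (nonZeroDivisors (Polynomial F)) (Finset.image (fun d => (f i).coeff d) (f i).support)
    have h2 : ∀ d, ∃ c : Polynomial F, algebraMap (Polynomial F) K c =
        algebraMap (Polynomial F) K b * (f i).coeff d := by
      intro d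
      by_cases hd : d ∈ (f i).support
      · obtain ⟨c, hc⟩ := hb _ (Finset.mem_image_of_mem _ hd)
        exact ⟨c, by rw [hc, Algebra.smul_def]⟩
      · exact ⟨0, by rw [map_zero, notMem_support_iff.mp hd, mul_zero]⟩
    choose c hc using h2
    refine ⟨b, ∑ d ∈ (f i).support, monomial d (c d), nonZeroDivisors.coe_ne_zero b, ?_, ?_⟩
    · refine IsHomogeneous.sum _ _ _ fun d hd => isHomogeneous_monomial _ ?_
      rw [(hf i).degree_eq_sum_deg_support hd]
      rfl
    · rw [map_sum]
      simp only [map_monomial, hc]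
      conv_rhs => rw [(f i).as_sum, Finset.mul_sum]
      refine Finset.sum_congr rfl fun d _ => ?_
      rw [C_mul_monomial]
  choose b g hb hg hgf using h1
  obtain ⟨x, hx0, hx⟩ := hF.exists_zero_poly g e hg he hN
  refine ⟨fun s => algebraMap (Polynomial F) K (x s), fun h => hx0 ?_, fun i => ?_⟩
  · funext s
    have := congrFun h s
    exact IsFractionRing.injective (Polynomial F) K (by rw [this]; simp)
  · have h3 : eval (fun s => algebraMap (Polynomial F) K (x s))
        (map (algebraMap (Polynomial F) K) (g i)) = 0 := by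
      rw [eval_map]
      have h4 := eval₂_comp_left (algebraMap (Polynomial F) K) (RingHom.id _) x (g i)
      rw [eval₂_id, hx i, map_zero, RingHom.comp_id] at h4
      exact h4.symm
    rw [hgf, map_mul, eval_C] at h3
    rcases mul_eq_zero.mp h3 with h | h
    · exact absurd (IsFractionRing.injective (Polynomial F) K (by rw [h, map_zero])) (hb i)
    · exact h

end poly

/-! ### finite extensions -/

/-- restriction of scalars -/
theorem HasCI.of_finite {n : ℕ} {K L : Type*} [Field K] [Field L] [Algebra K L] [FiniteDimensional K L]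
    (hK : HasCI n K) : HasCI n L := by
  classical
  intro ι σ _ _ f e hf he hN
  let m : ℕ := Module.finrank K L
  let b : Module.Basis (Fin m) K L := Module.finBasis K L
  -- the form in the coordinates
  let G : ι → MvPolynomial (σ × Fin m) L := fun i =>
    aeval (fun s => ∑ j, C (b j) * X (s, j)) (f i)
  have hG : ∀ i, (G i).IsHomogeneous (e i) := by
    intro i
    have h1 := (hf i).aeval (fun s => ∑ j, C (b j) * X (s, j) : σ → MvPolynomial (σ × Fin m) L)
      (n := 1) fun s => IsHomogeneous.sum _ _ _ fun j _ => isHomogeneous_C_mul_X _ _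
    rw [one_mul] at h1
    exact h1
  let g : ι × Fin m → MvPolynomial (σ × Fin m) K := fun q =>
    ∑ d ∈ (G q.1).support, monomial d (b.repr ((G q.1).coeff d) q.2)
  have hg : ∀ q, (g q).IsHomogeneous (e q.1) := fun q =>
    IsHomogeneous.sum _ _ _ fun d hd => isHomogeneous_monomial _ (by
      rw [(hG q.1).degree_eq_sum_deg_support hd]
      rfl)
  have hcard : ∑ q : ι × Fin m, e q.1 ^ n < Fintype.card (σ × Fin m) := by
    rw [Fintype.sum_prod_type, Fintype.card_prod, Fintype.card_fin]
    simp only [Finset.sum_const, Finset.card_univ, Fintype.card_fin, smul_eq_mul]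
    rw [← Finset.mul_sum, mul_comm]
    exact Nat.mul_lt_mul_of_pos_right hN Module.finrank_pos
  obtain ⟨y, hy0, hy⟩ := hK (ι × Fin m) (σ × Fin m) g (fun q => e q.1) hg (fun q => he q.1) hcard
  have hval : ∀ i, eval (fun q => algebraMap K L (y q)) (G i) =
      ∑ j, (eval y (g (i, j))) • b j := by
    intro i
    have h1 : ∀ j, eval y (g (i, j)) =
        ∑ d ∈ (G i).support, b.repr ((G i).coeff d) j * ∏ q ∈ d.support, y q ^ d q := by
      intro j
      simp only [g, map_sum, eval_monomial]
      rfl
    simp only [h1, Finset.sum_smul]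
    rw [Finset.sum_comm, eval_eq]
    refine Finset.sum_congr rfl fun d _ => ?_
    have h2 : ∏ q ∈ d.support, (algebraMap K L (y q)) ^ d q =
        algebraMap K L (∏ q ∈ d.support, y q ^ d q) := by
      rw [map_prod]
      simp only [map_pow]
    rw [h2]
    conv_lhs => rw [← b.sum_repr ((G i).coeff d), Finset.sum_mul]
    refine Finset.sum_congr rfl fun j _ => ?_
    rw [mul_comm, ← Algebra.smul_def, smul_smul, mul_comm]
  refine ⟨fun s => ∑ j, y (s, j) • b j, fun h => hy0 ?_, fun i => ?_⟩
  · funext ⟨s, j⟩
    have h1 := congrFun h s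
    exact Fintype.linearIndependent_iff.mp b.linearIndependent _ h1 j
  · have h1 : eval (fun q => algebraMap K L (y q)) (G i) = 0 := by
      rw [hval i]
      exact Finset.sum_eq_zero fun j _ => by rw [hy (i, j), zero_smul]
    rw [← h1]
    simp only [G]
    rw [aeval_def, ← coe_eval₂Hom]
    have h2 := eval₂_comp_left (eval fun q => algebraMap K L (y q))
      (algebraMap L (MvPolynomial (σ × Fin m) L))
      (fun s => ∑ j, C (b j) * X (s, j)) (f i)
    rw [coe_eval₂Hom, h2]
    have h3 : (eval fun q => algebraMap K L (y q)).comp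
        (algebraMap L (MvPolynomial (σ × Fin m) L)) = RingHom.id L := by
      ext x
      simp
    rw [h3, eval₂_id]
    congr 1
    congr 1
    funext s
    simp only [Function.comp_apply, map_sum, map_mul, eval_C, eval_X, Algebra.smul_def]
    exact Finset.sum_congr rfl fun j _ => mul_comm _ _

end Pool.Agent.Helper91.ZC

namespace ZC

universe u

/-- Every system of forms of degrees `e i` in more than `∑ (e i) ^ 3` variables has a nontrivial
common zero. -/
def C3 (K : Type u) [Field K] : Prop :=
  ∀ (N r : ℕ) (e : Fin r → ℕ) (f : Fin r → MvPolynomial (Fin N) K),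
    (∀ i, (f i).IsHomogeneous (e i)) → (∀ i, 0 < e i) → ∑ i, (e i) ^ 3 < N →
      ∃ x : Fin N → K, x ≠ 0 ∧ ∀ i, eval x (f i) = 0

open Pool.Agent.Helper91.ZC in
/-- Function fields of one variable over a `C2` field are `C3`. -/
theorem C2.c3 {K E : Type u} [Field K] [Field E] [Algebra K E] (h : C2 K)
    (hE : IsCurveField K E) : C3 E := by
  obtain ⟨t, ht, hfin⟩ := hE
  have h2 : HasCI 2 K := hasCI_iff.2 h
  let e : RatFunc K ≃ₐ[K] IntermediateField.adjoin K {t} := RatFunc.algEquivOfTranscendental t ht
  let _ : Algebra (RatFunc K) (IntermediateField.adjoin K {t}) := e.toRingEquiv.toRingHom.toAlgebra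
  have h0 : FiniteDimensional (RatFunc K) (IntermediateField.adjoin K {t}) := by
    have h1 : Function.Surjective (algebraMap (RatFunc K) (IntermediateField.adjoin K {t})) :=
      e.surjective
    exact Module.Finite.of_surjective (Algebra.linearMap _ _) h1
  have h3 : HasCI 3 (RatFunc K) := h2.fractionRing (RatFunc K)
  have h4 : HasCI 3 (IntermediateField.adjoin K {t}) := h3.of_finite
  have h5 : HasCI 3 E := h4.of_finite
  exact hasCI_iff.1 h5

end ZC
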