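import Pool.Agent.Helper72.ZF.Defs

/-!
# Cycles of points on families

Row FCONG of MP_bd895b: the cycle of a point with values in a finite extension depends only on the
point up to isomorphism and proportionality, every closed point is such a cycle, and the behaviour
under an extension of the field.
-/

set_option autoImplicit false

open MvPolynomial

namespace ZC

universe u

section

variable {K : Type u} [Field K] {m s : ℕ} {B : ProjVar K m s} {n r : ℕ}

theorem Family.closedPt_eq_mk (X : Family B n r) {L : Type*} [Field L] [Algebra K L]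
    [Algebra.IsAlgebraic K L] {x : Fin (m + 1) → L} {y : Fin (n + 1) → L} (h : X.IsPt x y)
    (f : L →ₐ[K] AlgebraicClosure K) (q : X.GPt) (b c : AlgebraicClosure K) (hb : b ≠ 0)
    (hc : c ≠ 0) (hx : ∀ i, q.1.1 i = b * f (x i)) (hy : ∀ i, q.1.2 i = c * f (y i)) :
    X.closedPt x y h = Quotient.mk X.gSetoid q := by
  obtain ⟨s, hs⟩ := exists_autom (IsAlgClosed.lift : L →ₐ[K] AlgebraicClosure K) f
  refine Quotient.sound ⟨s, b, c, hb, hc, fun i => ?_, fun i => ?_⟩
  · rw [hx i, hs]
  · rw [hy i, hs]

theorem finrank_sup_coordField {L L' : Type*} [Field L] [Algebra K L] [Field L'] [Algebra K L']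
    (σ : L ≃ₐ[K] L') (b c : L') (hb : b ≠ 0) (hc : c ≠ 0)
    {x : Fin (m + 1) → L} {y : Fin (n + 1) → L} {x' : Fin (m + 1) → L'} {y' : Fin (n + 1) → L'}
    (hx : ∀ i, x' i = b * σ (x i)) (hy : ∀ i, y' i = c * σ (y i)) :
    Module.finrank (coordField K x ⊔ coordField K y : IntermediateField K L) L =
      Module.finrank (coordField K x' ⊔ coordField K y' : IntermediateField K L') L' := by
  rw [coordField_map σ b hb hx, coordField_map σ c hc hy, ← IntermediateField.map_sup]
  refine Algebra.finrank_eq_of_equiv_equiv
    (IntermediateField.intermediateFieldMap σ (coordField K x ⊔ coordField K y)).toRingEquiv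
    σ.toRingEquiv ?_
  rfl

/-- The cycle of a point does not change under isomorphisms and scaling. -/
theorem Family.ptCycle_congr (X : Family B n r) {L L' : Type*} [Field L] [Algebra K L] [Field L']
    [Algebra K L'] (σ : L ≃ₐ[K] L') (b c : L') (hb : b ≠ 0) (hc : c ≠ 0)
    {x : Fin (m + 1) → L} {y : Fin (n + 1) → L} {x' : Fin (m + 1) → L'} {y' : Fin (n + 1) → L'}
    (h : X.IsPt x y) (h' : X.IsPt x' y') (hx : ∀ i, x' i = b * σ (x i))
    (hy : ∀ i, y' i = c * σ (y i)) : X.ptCycle x y h = X.ptCycle x' y' h' := by
  classical
  by_cases ha : Algebra.IsAlgebraic K L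
  · have ha' : Algebra.IsAlgebraic K L' := σ.isAlgebraic_iff.1 ha
    rw [Family.ptCycle, Family.ptCycle, dif_pos ha, dif_pos ha',
      finrank_sup_coordField σ b c hb hc hx hy]
    congr 1
    refine X.closedPt_eq_mk h
      ((IsAlgClosed.lift : L' →ₐ[K] AlgebraicClosure K).comp (σ : L →ₐ[K] L')) _
      ((IsAlgClosed.lift : L' →ₐ[K] AlgebraicClosure K) b)
      ((IsAlgClosed.lift : L' →ₐ[K] AlgebraicClosure K) c) ?_ ?_ (fun i => ?_) (fun i => ?_)
    · exact (_root_.map_ne_zero _).2 hb
    · exact (_root_.map_ne_zero _).2 hc
    · change (IsAlgClosed.lift : L' →ₐ[K] AlgebraicClosure K) (x' i) = _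
      rw [hx i, map_mul]
      rfl
    · change (IsAlgClosed.lift : L' →ₐ[K] AlgebraicClosure K) (y' i) = _
      rw [hy i, map_mul]
      rfl
  · have ha' : ¬ Algebra.IsAlgebraic K L' := fun h' => ha (σ.isAlgebraic_iff.2 h')
    rw [Family.ptCycle, Family.ptCycle, dif_neg ha, dif_neg ha']

/-- A closed point is the push-forward of the spectrum of its residue field. -/
theorem Family.single_eq_ptCycle (X : Family B n r) (P : X.ClosedPoint) :
    ∃ (L : Type u) (_ : Field L) (_ : Algebra K L) (_ : FiniteDimensional K L)
      (x : Fin (m + 1) → L) (y : Fin (n + 1) → L) (h : X.IsPt x y),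
      Finsupp.single P 1 = X.ptCycle x y h := by
  induction P using Quotient.inductionOn with
  | h q =>
    obtain ⟨⟨a, b⟩, hq⟩ := q
    change X.IsPt a b at hq
    obtain ⟨j, hj⟩ : ∃ j, a j ≠ 0 := by
      by_contra hcon
      push Not at hcon
      exact hq.1.1 (funext hcon)
    obtain ⟨l, hl⟩ : ∃ l, b l ≠ 0 := by
      by_contra hcon
      push Not at hcon
      exact hq.2.1 (funext hcon)
    let L : IntermediateField K (AlgebraicClosure K) := coordField K a ⊔ coordField K b
    have h1 : FiniteDimensional K (coordField K a) := coordField_finite a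
    have h2 : FiniteDimensional K (coordField K b) := coordField_finite b
    have hfd : FiniteDimensional K L := IntermediateField.finiteDimensional_sup _ _
    have hma : ∀ i, a i / a j ∈ L := fun i =>
      (le_sup_left : coordField K a ≤ L) (IntermediateField.subset_adjoin K _ ⟨i, j, rfl⟩)
    have hmb : ∀ i, b i / b l ∈ L := fun i =>
      (le_sup_right : coordField K b ≤ L) (IntermediateField.subset_adjoin K _ ⟨i, l, rfl⟩)
    let x : Fin (m + 1) → L := fun i => ⟨a i / a j, hma i⟩
    let y : Fin (n + 1) → L := fun i => ⟨b i / b l, hmb i⟩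
    have hxa : (fun i => algebraMap L (AlgebraicClosure K) (x i)) = fun i => (a j)⁻¹ * a i := by
      funext i
      change a i / a j = _
      rw [div_eq_inv_mul]
    have hyb : (fun i => algebraMap L (AlgebraicClosure K) (y i)) = fun i => (b l)⁻¹ * b i := by
      funext i
      change b i / b l = _
      rw [div_eq_inv_mul]
    have hxy : X.IsPt x y := by
      refine ⟨⟨fun h => ?_, fun i => ?_⟩, fun h => ?_, fun i => ?_⟩
      · have h1 := congrArg (fun f => ((f j : L) : AlgebraicClosure K)) h
        change a j / a j = 0 at h1
        rw [div_self hj] at h1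
        exact one_ne_zero h1
      · apply (algebraMap L (AlgebraicClosure K)).injective
        rw [map_zero, ← MvPolynomial.aeval_algebraMap_apply]
        change aeval (fun i => algebraMap L (AlgebraicClosure K) (x i)) (B.form i) = 0
        rw [hxa, aeval_scale (B.hom i), hq.1.2 i, mul_zero]
      · have h1 := congrArg (fun f => ((f l : L) : AlgebraicClosure K)) h
        change b l / b l = 0 at h1
        rw [div_self hl] at h1
        exact one_ne_zero h1
      · apply (algebraMap L (AlgebraicClosure K)).injective
        rw [map_zero, ← MvPolynomial.aeval_algebraMap_apply]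
        have h3 : (fun k => algebraMap L (AlgebraicClosure K) (Sum.elim x y k)) =
            Sum.elim (fun i => (a j)⁻¹ * a i) (fun i => (b l)⁻¹ * b i) := by
          rw [← hxa, ← hyb]
          funext k
          cases k <;> rfl
        change aeval (fun k => algebraMap L (AlgebraicClosure K) (Sum.elim x y k)) (X.form i) = 0
        rw [h3, aeval_scale₂ (X.hom₁ i) (X.hom₂ i), hq.2.2 i, mul_zero]
    refine ⟨L, inferInstance, inferInstance, hfd, x, y, hxy, ?_⟩
    have hmap : ∀ {k : ℕ} (u : Fin (k + 1) → L) (v : Fin (k + 1) → AlgebraicClosure K)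
        (t : AlgebraicClosure K), t ≠ 0 → (∀ i, ((u i : L) : AlgebraicClosure K) = v i / t) →
        IntermediateField.map L.val (coordField K u) = coordField K v := by
      intro k u v t ht huv
      change IntermediateField.map L.val (IntermediateField.adjoin K _) = coordField K v
      rw [IntermediateField.adjoin_map, coordField]
      congr 1
      ext z
      constructor
      · rintro ⟨_, ⟨p, q, rfl⟩, rfl⟩
        refine ⟨p, q, ?_⟩
        change ((u p : L) : AlgebraicClosure K) / ((u q : L) : AlgebraicClosure K) = _
        rw [huv, huv, div_div_div_cancel_right₀ ht]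
      · rintro ⟨p, q, rfl⟩
        refine ⟨u p / u q, ⟨p, q, rfl⟩, ?_⟩
        change ((u p : L) : AlgebraicClosure K) / ((u q : L) : AlgebraicClosure K) = _
        rw [huv, huv, div_div_div_cancel_right₀ ht]
    have htop : coordField K x ⊔ coordField K y = ⊤ := by
      apply IntermediateField.map_injective L.val
      rw [← AlgHom.fieldRange_eq_map, IntermediateField.fieldRange_val,
        IntermediateField.map_sup, hmap x a (a j) hj (fun _ => rfl),
        hmap y b (b l) hl (fun _ => rfl)]
    have halg : Algebra.IsAlgebraic K L := inferInstance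
    rw [Family.ptCycle, dif_pos halg, htop, IntermediateField.finrank_top,
      X.closedPt_eq_mk hxy L.val ⟨(a, b), hq⟩ (a j) (b l) hj hl (fun i => ?_) (fun i => ?_)]
    · rfl
    · change a i = a j * (a i / a j)
      rw [mul_div_cancel₀ _ hj]
    · change b i = b l * (b i / b l)
      rw [mul_div_cancel₀ _ hl]

/-- The degree of an extension of `L` over the image of a subfield. -/
theorem finrank_map_mul {L M : Type u} [Field L] [Field M] [Algebra K L] [Algebra K M]
    [Algebra L M] [IsScalarTower K L M] (F : IntermediateField K L) :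
    Module.finrank (F.map (IsScalarTower.toAlgHom K L M)) M =
      Module.finrank L M * Module.finrank F L := by
  rw [mul_comm, Module.finrank_mul_finrank]
  symm
  refine Algebra.finrank_eq_of_equiv_equiv
    (IntermediateField.equivMap F (IsScalarTower.toAlgHom K L M)).toRingEquiv
    (RingEquiv.refl M) ?_
  rfl

/-- A point over `L`, seen over a finite extension `M` of `L`. -/
theorem Family.ptCycle_ext (X : Family B n r) {L M : Type u} [Field L] [Field M] [Algebra K L]
    [Algebra K M] [Algebra L M] [IsScalarTower K L M] [FiniteDimensional K L]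
    [FiniteDimensional L M] {x : Fin (m + 1) → L} {y : Fin (n + 1) → L} (h : X.IsPt x y)
    (h' : X.IsPt (fun i => algebraMap L M (x i)) (fun i => algebraMap L M (y i))) :
    X.ptCycle (fun i => algebraMap L M (x i)) (fun i => algebraMap L M (y i)) h' =
      (Module.finrank L M : ℤ) • X.ptCycle x y h := by
  have hfd : FiniteDimensional K M := FiniteDimensional.trans K L M
  have ha : Algebra.IsAlgebraic K L := inferInstance
  have ha' : Algebra.IsAlgebraic K M := inferInstance
  have h1 : ∀ {k : ℕ} (u : Fin (k + 1) → L), coordField K (fun i => algebraMap L M (u i)) =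
      (coordField K u).map (IsScalarTower.toAlgHom K L M) := by
    intro k u
    have h2 := coordField_image (IsScalarTower.toAlgHom K L M) 1 one_ne_zero u
    simp only [one_mul] at h2
    exact h2
  rw [Family.ptCycle, Family.ptCycle, dif_pos ha, dif_pos ha', h1, h1,
    ← IntermediateField.map_sup, finrank_map_mul, Finsupp.smul_single, smul_eq_mul]
  push_cast
  congr 1
  symm
  refine X.closedPt_eq_mk h ((IsAlgClosed.lift : M →ₐ[K] AlgebraicClosure K).comp
    (IsScalarTower.toAlgHom K L M)) _ 1 1 one_ne_zero one_ne_zero (fun i => ?_) (fun i => ?_)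
  · rw [one_mul]
    rfl
  · rw [one_mul]
    rfl

/-- The same for the base. -/
theorem ptCycle_ext (B : ProjVar K m s) {L M : Type u} [Field L] [Field M] [Algebra K L]
    [Algebra K M] [Algebra L M] [IsScalarTower K L M] [FiniteDimensional K L]
    [FiniteDimensional L M] {x : Fin (m + 1) → L} (h : B.IsPt x)
    (h' : B.IsPt (fun i => algebraMap L M (x i))) :
    ptCycle B (fun i => algebraMap L M (x i)) h' = (Module.finrank L M : ℤ) • ptCycle B x h := by
  have hfd : FiniteDimensional K M := FiniteDimensional.trans K L M
  have ha : Algebra.IsAlgebraic K L := inferInstance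
  have ha' : Algebra.IsAlgebraic K M := inferInstance
  have h1 : coordField K (fun i => algebraMap L M (x i)) =
      (coordField K x).map (IsScalarTower.toAlgHom K L M) := by
    have h2 := coordField_image (IsScalarTower.toAlgHom K L M) 1 one_ne_zero x
    simp only [one_mul] at h2
    exact h2
  rw [ptCycle, ptCycle, dif_pos ha, dif_pos ha', h1, finrank_map_mul, Finsupp.smul_single,
    smul_eq_mul]
  push_cast
  congr 1
  symm
  refine closedPt_eq_mk B h ((IsAlgClosed.lift : M →ₐ[K] AlgebraicClosure K).comp
    (IsScalarTower.toAlgHom K L M)) _ 1 one_ne_zero (fun i => ?_)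
  rw [one_mul]
  rfl

end

end ZC
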