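import Pool.Agent.Helper15.ZF.NormSet
import Pool.Agent.Helper15.ZF.C3
import Pool.Agent.Helper91.ZC.Quadrics

/-!
# Norms for intersections of quadrics

Over a field with property `C₃`, every element is a product of norms from finite extensions over
which `r` quadrics in `ℙⁿ`, `4 r ≤ n` and `10 r ≤ n + 18`, have a common point.
-/

set_option autoImplicit false

open Polynomial ZC

namespace ZF

universe u

section indep

variable {E : Type u} [Field E] {N : ℕ}

/-- A vector outside a plane. -/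
theorem exists_functional {x z w : Fin N → E} (h : x ∉ Submodule.span E {z, w}) :
    ∃ ψ : Fin N → E, ∑ k, ψ k * x k = 1 ∧ ∑ k, ψ k * z k = 0 ∧ ∑ k, ψ k * w k = 0 := by
  obtain ⟨F, hF, hF'⟩ := Submodule.exists_dual_map_eq_bot_of_notMem h inferInstance
  have hz : F z = 0 := by
    have h1 : F z ∈ (Submodule.span E {z, w}).map F :=
      ⟨z, Submodule.subset_span (by simp), rfl⟩
    rw [hF'] at h1
    exact h1
  have hw : F w = 0 := by
    have h1 : F w ∈ (Submodule.span E {z, w}).map F :=
      ⟨w, Submodule.subset_span (by simp), rfl⟩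
    rw [hF'] at h1
    exact h1
  have key : ∀ v : Fin N → E, ∑ k, (F x)⁻¹ * F (fun j => if k = j then 1 else 0) * v k =
      (F x)⁻¹ * F v := by
    intro v
    rw [LinearMap.pi_apply_eq_sum_univ F v, Finset.mul_sum]
    refine Finset.sum_congr rfl fun k _ => ?_
    rw [smul_eq_mul]
    ring
  refine ⟨fun k => (F x)⁻¹ * F (fun j => if k = j then 1 else 0), ?_, ?_, ?_⟩
  · rw [key, inv_mul_cancel₀ hF]
  · rw [key, hz, mul_zero]
  · rw [key, hw, mul_zero]

theorem comb_ne_zero {x z w : Fin N → E} (h : x ∉ Submodule.span E {z, w}) {M : Type*} [Field M]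
    [Algebra E M] (b c : M) :
    (fun k => 1 * algebraMap E M (x k) + b * algebraMap E M (z k) + c * algebraMap E M (w k)) ≠
      0 := by
  obtain ⟨ψ, h1, h2, h3⟩ := exists_functional h
  intro h0
  have h4 : ∑ k, algebraMap E M (ψ k) * (1 * algebraMap E M (x k) + b * algebraMap E M (z k) +
      c * algebraMap E M (w k)) = 1 := by
    have h5 : ∀ v : Fin N → E, ∑ k, algebraMap E M (ψ k) * algebraMap E M (v k) =
        algebraMap E M (∑ k, ψ k * v k) := by
      intro v
      rw [map_sum]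
      exact Finset.sum_congr rfl fun k _ => (map_mul _ _ _).symm
    calc ∑ k, algebraMap E M (ψ k) * (1 * algebraMap E M (x k) + b * algebraMap E M (z k) +
          c * algebraMap E M (w k))
        = ∑ k, algebraMap E M (ψ k) * algebraMap E M (x k) +
          b * ∑ k, algebraMap E M (ψ k) * algebraMap E M (z k) +
          c * ∑ k, algebraMap E M (ψ k) * algebraMap E M (w k) := by
          rw [Finset.mul_sum, Finset.mul_sum, ← Finset.sum_add_distrib, ← Finset.sum_add_distrib]
          exact Finset.sum_congr rfl fun k _ => by ring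
      _ = 1 := by rw [h5, h5, h5, h1, h2, h3]; simp
  have h6 : ∀ k, 1 * algebraMap E M (x k) + b * algebraMap E M (z k) +
      c * algebraMap E M (w k) = 0 := fun k => congrFun h0 k
  simp only [h6, mul_zero, Finset.sum_const_zero] at h4
  exact zero_ne_one h4

end indep

section curves

variable {E : Type u} [Field E] {N : ℕ} {ι : Type} {f : ι → MvPolynomial (Fin N) E} {S : Set E}

/-- The values at the ends of a rational curve on which the forms are multiples of one
polynomial. -/
theorem NormSet.of_curve (hS : NormSet f S) (φ : Fin N → E[X]) (m : ι → E) (P : E[X])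
    (hP : P.coeff 0 ≠ 0) (h : ∀ i, MvPolynomial.aeval φ (f i) = C (m i) * P)
    (hne : ∀ (M : Type u) [Field M] [Algebra E M] (t : M), (fun k => aeval t (φ k)) ≠ 0) :
    P.coeff 0 / P.leadingCoeff ∈ S := by
  refine hS.poly P hP fun M _ _ _ t ht => ⟨fun k => aeval t (φ k), hne M t, fun i => ?_⟩
  rw [← MvPolynomial.comp_aeval_apply φ (aeval t : E[X] →ₐ[E] M) (f i), h i, map_mul, ht,
    mul_zero]

/-- If the forms have a zero, all elements are norms. -/
theorem NormSet.of_point (hS : NormSet f S) {x : Fin N → E} (hx : x ≠ 0)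
    (h : ∀ i, MvPolynomial.aeval x (f i) = 0) (g : E) (hg : g ≠ 0) : g ∈ S := by
  have h1 := hS.of_curve (fun k => C (x k)) (fun _ => 0) (X + C g) (by simpa using hg)
    (fun i => by
      have h2 : MvPolynomial.aeval (fun k => C (x k) : Fin N → E[X]) (f i) =
          C (MvPolynomial.aeval x (f i)) :=
        (MvPolynomial.comp_aeval_apply x (Algebra.ofId E E[X]) (f i)).symm
      rw [h2, h i, map_zero, zero_mul])
    (fun M _ _ t h0 => by
      obtain ⟨k, hk⟩ := Function.ne_iff.1 hx
      have h2 := congrFun h0 k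
      simp only [aeval_C, Pi.zero_apply, map_eq_zero] at h2
      exact hk h2)
  rwa [leadingCoeff_X_add_C, coeff_add, coeff_X_zero, coeff_C_zero, zero_add, div_one] at h1

variable (c : ι → Fin N → Fin N → E)
  (hc : ∀ i (R : Type u) [CommRing R] [Algebra E R] (u : Fin N → R),
    MvPolynomial.aeval u (f i) = qf (fun a b => algebraMap E R (c i a b)) u)

include hc in
/-- The forms on a curve `x + t z + t² s w`. -/
theorem aeval_conic (x z w : Fin N → E) (s : E) (i : ι) :
    MvPolynomial.aeval (fun k => 1 * C (x k) + X * C (z k) + C s * X ^ 2 * C (w k) :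
      Fin N → E[X]) (f i) =
      C (qf (c i) x) + C (bf (c i) x z) * X + C (qf (c i) z + s * bf (c i) x w) * X ^ 2 +
        C (s * bf (c i) z w) * X ^ 3 + C (s ^ 2 * qf (c i) w) * X ^ 4 := by
  have e1 : ∀ u : Fin N → E, qf (fun a b => algebraMap E E[X] (c i a b)) (fun k => C (u k)) =
      C (qf (c i) u) := fun u => (map_qf (C : E →+* E[X]) (c i) u).symm
  have e2 : ∀ u v : Fin N → E, bf (fun a b => algebraMap E E[X] (c i a b)) (fun k => C (u k))
      (fun k => C (v k)) = C (bf (c i) u v) := fun u v => (map_bf (C : E →+* E[X]) (c i) u v).symm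
  rw [hc i, qf_three, e1, e1, e1, e2, e2, e2]
  simp only [map_add, map_mul, map_pow]
  ring

include hc in
/-- A line. -/
theorem NormSet.of_line (hS : NormSet f S) {x z : Fin N → E} (hxz : x ∉ Submodule.span E {z})
    (m : ι → E) {p0 p1 p2 : E} (hp0 : p0 ≠ 0) (hp2 : p2 ≠ 0)
    (h0 : ∀ i, qf (c i) x = m i * p0) (h1 : ∀ i, bf (c i) x z = m i * p1)
    (h2 : ∀ i, qf (c i) z = m i * p2) : p0 / p2 ∈ S := by
  have h3 := hS.of_curve (fun k => 1 * C (x k) + X * C (z k) + C 0 * X ^ 2 * C (z k)) m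
    (C p2 * X ^ 2 + C p1 * X + C p0) (by simpa using hp0) (fun i => by
      rw [aeval_conic c hc, h0, h1, h2]
      simp only [map_add, map_mul, map_pow, map_zero]
      ring) (fun M _ _ t => by
      have h4 : x ∉ Submodule.span E {z, z} := by rwa [Set.pair_eq_singleton]
      have h5 := comb_ne_zero h4 t (0 : M)
      convert h5 using 2 with k
      simp only [map_add, map_mul, map_pow, map_one, map_zero, aeval_C, aeval_X]
      ring)
  rw [leadingCoeff_quadratic hp2] at h3
  simpa using h3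

include hc in
/-- A conic. -/
theorem NormSet.of_conic (hS : NormSet f S) {x z w : Fin N → E}
    (hxz : x ∉ Submodule.span E {z, w}) (s : E) (m : ι → E) {p0 p1 p2 p3 p4 : E}
    (hp0 : p0 ≠ 0) (hp4 : p4 ≠ 0)
    (h0 : ∀ i, qf (c i) x = m i * p0) (h1 : ∀ i, bf (c i) x z = m i * p1)
    (h2 : ∀ i, qf (c i) z + s * bf (c i) x w = m i * p2)
    (h3 : ∀ i, s * bf (c i) z w = m i * p3) (h4 : ∀ i, s ^ 2 * qf (c i) w = m i * p4) :
    p0 / p4 ∈ S := by
  have hlt : (C p3 * X ^ 3 + C p2 * X ^ 2 + C p1 * X + C p0 : E[X]).degree <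
      (C p4 * X ^ 4 : E[X]).degree := by
    rw [degree_C_mul_X_pow 4 hp4]
    exact lt_of_le_of_lt degree_cubic_le (by norm_cast)
  have h5 := hS.of_curve (fun k => 1 * C (x k) + X * C (z k) + C s * X ^ 2 * C (w k)) m
    (C p3 * X ^ 3 + C p2 * X ^ 2 + C p1 * X + C p0 + C p4 * X ^ 4) (by simpa using hp0)
    (fun i => by
      rw [aeval_conic c hc, h0, h1, h2, h3, h4]
      simp only [map_mul]
      ring) (fun M _ _ t => by
      have h5 := comb_ne_zero hxz t (algebraMap E M s * t ^ 2)
      convert h5 using 2 with k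
      simp only [map_add, map_mul, map_pow, map_one, aeval_C, aeval_X])
  rw [leadingCoeff_add_of_degree_lt hlt, leadingCoeff_C_mul_X_pow] at h5
  simpa using h5

end curves

section main

variable {E : Type u} [Field E]

/-- The main step: for `g` not a square, the forms have a zero, or `g` is a product of norms, or
`g` is one up to squares and fourth powers are products of norms. -/
theorem NormSet.quads_step (hE : HasC 3 E) {n r : ℕ} (h4 : 4 * r ≤ n) (h10 : 10 * r ≤ n + 18)
    (f : Fin r → MvPolynomial (Fin (n + 1)) E) (hf : ∀ i, (f i).IsHomogeneous 2)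
    {S : Set E} (hS : NormSet f S) (g : E) (hg : g ≠ 0) (hsq : ¬ IsSquare g) :
    (∃ x : Fin (n + 1) → E, x ≠ 0 ∧ ∀ i, MvPolynomial.aeval x (f i) = 0) ∨ g ∈ S ∨
      ((∃ s : E, s ≠ 0 ∧ g / s ^ 2 ∈ S) ∧ ∀ d : E, d ≠ 0 → d ^ 4 ∈ S) := by
  classical
  have hc : ∀ i, ∃ c : Fin (n + 1) → Fin (n + 1) → E, ∀ (R : Type u) [CommRing R]
      [Algebra E R] (u : Fin (n + 1) → R), MvPolynomial.aeval u (f i) =
        qf (fun a b => algebraMap E R (c a b)) u := fun i => exists_coeffs (hf i)
  choose c hc using hc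
  have hval : ∀ i (u : Fin (n + 1) → E), MvPolynomial.aeval u (f i) = qf (c i) u :=
    fun i u => hc i E u
  by_cases hpt : ∃ x : Fin (n + 1) → E, x ≠ 0 ∧ ∀ i, MvPolynomial.aeval x (f i) = 0
  · exact Or.inl hpt
  right
  have hpt' : ∀ u : Fin (n + 1) → E, u ≠ 0 → ∃ i, qf (c i) u ≠ 0 := by
    intro u hu
    by_contra hcon
    push Not at hcon
    exact hpt ⟨u, hu, fun i => by rw [hval]; exact hcon i⟩
  -- the two points
  obtain ⟨y, hy0, hy⟩ := hE (Fin r) (Fin (n + 1) ⊕ Fin (n + 1))
    (fun i => MvPolynomial.rename Sum.inl (f i) -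
      MvPolynomial.C g * MvPolynomial.rename Sum.inr (f i)) (fun _ => 2)
    (fun i => by
      refine ((hf i).rename_isHomogeneous).sub ?_
      have h1 := (MvPolynomial.isHomogeneous_C (Fin (n + 1) ⊕ Fin (n + 1)) g).mul
        ((hf i).rename_isHomogeneous (f := (Sum.inr : Fin (n + 1) → Fin (n + 1) ⊕ Fin (n + 1))))
      rwa [zero_add] at h1)
    (fun _ => two_pos)
    (by
      simp only [Finset.sum_const, Finset.card_univ, Fintype.card_fin, Fintype.card_sum,
        smul_eq_mul]
      omega)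
  set x : Fin (n + 1) → E := fun k => y (Sum.inl k) with hx
  set w : Fin (n + 1) → E := fun k => y (Sum.inr k) with hw
  have hxw : ∀ i, qf (c i) x = g * qf (c i) w := by
    intro i
    have h1 := hy i
    rw [map_sub, map_mul, MvPolynomial.eval_C, MvPolynomial.eval_rename,
      MvPolynomial.eval_rename, sub_eq_zero] at h1
    rw [← hval, ← hval, MvPolynomial.aeval_eq_eval, MvPolynomial.aeval_eq_eval]
    exact h1
  have hqf0 : ∀ i, qf (c i) 0 = 0 := fun i => by simp [qf]
  have hw0 : w ≠ 0 := by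
    intro h0
    have hx0 : x ≠ 0 := by
      intro h1
      apply hy0
      funext k
      rcases k with k | k
      · exact congrFun h1 k
      · exact congrFun h0 k
    obtain ⟨i, hi⟩ := hpt' x hx0
    rw [hxw, h0, hqf0, mul_zero] at hi
    exact hi rfl
  have hsm : ∀ i (l : E) (u : Fin (n + 1) → E), qf (c i) (l • u) = l ^ 2 * qf (c i) u := by
    intro i l u
    have h1 := qf_three (c i) u u u l 0 0
    have h2 : (fun k => l * u k + 0 * u k + 0 * u k) = l • u := by
      funext k
      simp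
    rw [h2] at h1
    rw [h1]
    ring
  have hxw1 : x ∉ Submodule.span E {w} := by
    intro h0
    obtain ⟨l, hl⟩ := Submodule.mem_span_singleton.1 h0
    obtain ⟨i, hi⟩ := hpt' w hw0
    have h1 := hxw i
    rw [← hl, hsm] at h1
    have h2 := mul_right_cancel₀ hi h1
    exact hsq ⟨l, by rw [← h2, sq]⟩
  have hx0 : x ≠ 0 := fun h0 => hxw1 (by rw [h0]; exact Submodule.zero_mem _)
  obtain ⟨i₀, hi₀⟩ := hpt' w hw0
  set a₀ : E := qf (c i₀) w with ha₀
  set m : Fin r → E := fun i => qf (c i) w / a₀ with hm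
  have hmw : ∀ i, qf (c i) w = m i * a₀ := fun i => by
    rw [hm]
    beta_reduce
    rw [div_mul_cancel₀ _ hi₀]
  have hm0 : m i₀ = 1 := div_self hi₀
  have hmx : ∀ i, qf (c i) x = m i * (g * a₀) := fun i => by rw [hxw, hmw]; ring
  have hga : g * a₀ ≠ 0 := mul_ne_zero hg hi₀
  by_cases hb : ∀ i, bf (c i) x w = m i * bf (c i₀) x w
  · left
    have h1 := hS.of_line c hc hxw1 m hga hi₀ hmx hb hmw
    rwa [mul_div_cancel_right₀ _ hi₀] at h1
  push Not at hb
  obtain ⟨i₁, hi₁⟩ := hb
  set b' : Fin r → E := fun i => bf (c i) x w - m i * bf (c i₀) x w with hb'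
  have hβ : b' i₁ ≠ 0 := sub_ne_zero.2 hi₁
  have hb0 : b' i₀ = 0 := by
    rw [hb']
    beta_reduce
    rw [hm0, one_mul, sub_self]
  have hne : i₁ ≠ i₀ := by
    rintro rfl
    exact hβ hb0
  set ν : Fin r → E := fun i => b' i / b' i₁ with hν
  have hν1 : ν i₁ = 1 := div_self hβ
  have hν0 : ν i₀ = 0 := by
    rw [hν]
    beta_reduce
    rw [hb0, zero_div]
  set e : Fin r → Fin (n + 1) → Fin (n + 1) → E := fun i a b => c i a b - m i * c i₀ a b with he
  set e' : Fin r → Fin (n + 1) → Fin (n + 1) → E := fun i a b => e i a b - ν i * e i₁ a b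
    with he'
  have heq : ∀ i u, qf (e i) u = qf (c i) u - m i * qf (c i₀) u := fun i u =>
    qf_sub (c i) (c i₀) (m i) u
  have heb : ∀ i u v, bf (e i) u v = bf (c i) u v - m i * bf (c i₀) u v := fun i u v =>
    bf_sub (c i) (c i₀) (m i) u v
  have heq' : ∀ i u, qf (e' i) u = qf (e i) u - ν i * qf (e i₁) u := fun i u =>
    qf_sub (e i) (e i₁) (ν i) u
  -- the third point
  let ι := ({i : Fin r // i ≠ i₀} × Fin 2) ⊕ {i : Fin r // i ≠ i₀ ∧ i ≠ i₁}
  let dg : ι → ℕ := Sum.elim (fun _ => 1) (fun _ => 2)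
  let F : ι → MvPolynomial (Fin (n + 1)) E := Sum.elim
    (fun q => ![linForm (e q.1) x, linForm (e q.1) w] q.2) (fun q => quadForm (e' q))
  have hF : ∀ q, (F q).IsHomogeneous (dg q) := by
    rintro (⟨q, s⟩ | q)
    · fin_cases s
      · exact hom_linForm _ _
      · exact hom_linForm _ _
    · exact hom_quadForm _
  have hdg : ∀ q, 0 < dg q := by
    rintro (q | q)
    · exact Nat.one_pos
    · exact Nat.two_pos
  have hcard : Fintype.card {i : Fin r // i ≠ i₀} = r - 1 := by simp
  have hcard' : Fintype.card {i : Fin r // i ≠ i₀ ∧ i ≠ i₁} = r - 2 := by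
    rw [Fintype.card_subtype]
    have h1 : (Finset.univ.filter fun i : Fin r => i ≠ i₀ ∧ i ≠ i₁) =
        (Finset.univ.erase i₀).erase i₁ := by
      ext i
      simp only [Finset.mem_filter, Finset.mem_univ, true_and, Finset.mem_erase, and_true]
      exact and_comm
    rw [h1, Finset.card_erase_of_mem (Finset.mem_erase.2 ⟨hne, Finset.mem_univ _⟩),
      Finset.card_erase_of_mem (Finset.mem_univ _), Finset.card_univ, Fintype.card_fin]
    omega
  have hr : 2 ≤ r := by
    have h1 := i₀.isLt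
    have h2 := i₁.isLt
    have h3 : (i₁ : ℕ) ≠ i₀ := fun h => hne (Fin.ext h)
    omega
  have hsum : ∑ q, dg q ^ 3 < Fintype.card (Fin (n + 1)) := by
    rw [Fintype.sum_sum_type, Fintype.card_fin]
    have h1 : ∑ q : {i : Fin r // i ≠ i₀} × Fin 2, dg (Sum.inl q) ^ 3 = (r - 1) * 2 := by
      have : ∀ q : {i : Fin r // i ≠ i₀} × Fin 2, dg (Sum.inl q) ^ 3 = 1 := fun q => rfl
      simp only [this, Finset.sum_const, Finset.card_univ, Fintype.card_prod, hcard,
        Fintype.card_fin, smul_eq_mul, mul_one]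
    have h2 : ∑ q : {i : Fin r // i ≠ i₀ ∧ i ≠ i₁}, dg (Sum.inr q) ^ 3 = (r - 2) * 8 := by
      have : ∀ q : {i : Fin r // i ≠ i₀ ∧ i ≠ i₁}, dg (Sum.inr q) ^ 3 = 8 := fun q => rfl
      simp only [this, Finset.sum_const, Finset.card_univ, hcard', smul_eq_mul]
    rw [h1, h2]
    omega
  obtain ⟨z, hz0, hz⟩ := hE ι (Fin (n + 1)) F dg hF hdg hsum
  have hze : ∀ i, bf (e i) x z = 0 ∧ bf (e i) w z = 0 := by
    intro i
    by_cases hi : i = i₀
    · subst hi
      constructor
      · rw [heb, hm0, one_mul, sub_self]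
      · rw [heb, hm0, one_mul, sub_self]
    · constructor
      · rw [← eval_linForm]
        exact hz (Sum.inl (⟨i, hi⟩, 0))
      · rw [← eval_linForm]
        exact hz (Sum.inl (⟨i, hi⟩, 1))
  have hzq : ∀ i, qf (e i) z = ν i * qf (e i₁) z := by
    intro i
    by_cases hi : i = i₀
    · subst hi
      rw [heq, hm0, one_mul, sub_self, hν0, zero_mul]
    · by_cases hi' : i = i₁
      · subst hi'
        rw [hν1, one_mul]
      · have h1 := hz (Sum.inr ⟨i, hi, hi'⟩)
        change MvPolynomial.eval z (quadForm (e' i)) = 0 at h1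
        rw [eval_quadForm, heq', sub_eq_zero] at h1
        exact h1
  have hexq : ∀ i, qf (e i) x = 0 := fun i => by rw [heq, hmx, hmx i₀, hm0]; ring
  have hewq : ∀ i, qf (e i) w = 0 := fun i => by rw [heq, hmw, hmw i₀, hm0]; ring
  have hexw : ∀ i, bf (e i) x w = b' i := fun i => heb i x w
  have hbxx : ∀ (C : Fin (n + 1) → Fin (n + 1) → E) (u : Fin (n + 1) → E),
      bf C u u = 2 * qf C u := by
    intro C u
    simp only [bf, qf, Finset.mul_sum]
    exact Finset.sum_congr rfl fun _ _ => Finset.sum_congr rfl fun _ _ => by ring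
  have hblin : ∀ (C : Fin (n + 1) → Fin (n + 1) → E) (u v v' : Fin (n + 1) → E) (α γ : E),
      bf C u (α • v + γ • v') = α * bf C u v + γ * bf C u v' := by
    intro C u v v' α γ
    simp only [bf, Finset.mul_sum, ← Finset.sum_add_distrib, Pi.add_apply, Pi.smul_apply,
      smul_eq_mul]
    exact Finset.sum_congr rfl fun _ _ => Finset.sum_congr rfl fun _ _ => by ring
  have hbcomm : ∀ (C : Fin (n + 1) → Fin (n + 1) → E) (u v : Fin (n + 1) → E),
      bf C u v = bf C v u := by
    intro C u v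
    simp only [bf]
    exact Finset.sum_congr rfl fun _ _ => Finset.sum_congr rfl fun _ _ => by ring
  have hzspan : z ∉ Submodule.span E {x, w} := by
    intro h0
    obtain ⟨α, γ, h1⟩ := Submodule.mem_span_pair.1 h0
    have h2 := (hze i₁).1
    have h3 := (hze i₁).2
    rw [← h1, hblin, hbxx, hexq, hexw] at h2
    rw [← h1, hblin, hbxx, hewq, hbcomm _ w x, hexw] at h3
    have h4 : γ = 0 := by
      have h5 : γ * b' i₁ = 0 := by linear_combination h2
      exact (mul_eq_zero.1 h5).resolve_right hβ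
    have h5 : α = 0 := by
      have h5 : α * b' i₁ = 0 := by linear_combination h3
      exact (mul_eq_zero.1 h5).resolve_right hβ
    apply hz0
    rw [← h1, h4, h5, zero_smul, zero_smul, add_zero]
  have hsp : ∀ d : E, d ≠ 0 → x ∉ Submodule.span E {d • z, w} := by
    intro d hd h0
    obtain ⟨α, γ, h1⟩ := Submodule.mem_span_pair.1 h0
    by_cases hα : α = 0
    · apply hxw1
      rw [← h1, hα, zero_smul, zero_add]
      exact Submodule.smul_mem _ _ (Submodule.mem_span_singleton_self w)
    · apply hzspan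
      rw [Submodule.mem_span_pair]
      refine ⟨(α * d)⁻¹, -(γ * (α * d)⁻¹), ?_⟩
      have hαd : α * d ≠ 0 := mul_ne_zero hα hd
      rw [← h1]
      funext k
      simp only [Pi.add_apply, Pi.smul_apply, smul_eq_mul]
      field_simp
      ring
  have hbz : ∀ i, bf (c i) x z = m i * bf (c i₀) x z := fun i => by
    have := (hze i).1
    rw [heb] at this
    exact sub_eq_zero.1 this
  have hbwz : ∀ i, bf (c i) w z = m i * bf (c i₀) w z := fun i => by
    have := (hze i).2
    rw [heb] at this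
    exact sub_eq_zero.1 this
  set s : E := -qf (e i₁) z / b' i₁ with hs
  have hs1 : s * b' i₁ = -qf (e i₁) z := by
    rw [hs]
    field_simp
  have hq2 : ∀ i, qf (c i) z + s * bf (c i) x w =
      m i * (qf (c i₀) z + s * bf (c i₀) x w) := by
    intro i
    have h1 := hzq i
    have h2 : b' i = ν i * b' i₁ := by
      rw [hν]
      beta_reduce
      rw [div_mul_cancel₀ _ hβ]
    have h3 : b' i = bf (c i) x w - m i * bf (c i₀) x w := rfl
    rw [heq] at h1
    linear_combination h1 + ν i * hs1 - s * h3 + s * h2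
  by_cases hs0 : s = 0
  · -- two lines
    left
    have hqz : ∀ i, qf (c i) z = m i * qf (c i₀) z := by
      intro i
      have h1 := hq2 i
      rwa [hs0, zero_mul, zero_mul, add_zero, add_zero] at h1
    have hz2 : qf (c i₀) z ≠ 0 := by
      intro h0
      obtain ⟨i, hi⟩ := hpt' z hz0
      rw [hqz, h0, mul_zero] at hi
      exact hi rfl
    have hxz : x ∉ Submodule.span E {z} := by
      intro h0
      have h1 := hsp 1 one_ne_zero
      rw [one_smul] at h1
      exact h1 (Submodule.span_mono (by simp) h0)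
    have hwz : w ∉ Submodule.span E {z} := by
      intro h0
      obtain ⟨α, h1⟩ := Submodule.mem_span_singleton.1 h0
      apply hzspan
      have hα : α ≠ 0 := by
        rintro rfl
        rw [zero_smul] at h1
        exact hw0 h1.symm
      rw [Submodule.mem_span_pair]
      refine ⟨0, α⁻¹, ?_⟩
      rw [← h1, zero_smul, zero_add, smul_smul, inv_mul_cancel₀ hα, one_smul]
    have h1 := hS.of_line c hc hxz m hga hz2 hmx hbz hqz
    have h2 := hS.of_line c hc hwz m hi₀ hz2 hmw hbwz hqz
    have h3 := hS.mul _ _ h1 (hS.inv _ h2)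
    have h4 : g * a₀ / qf (c i₀) z * (a₀ / qf (c i₀) z)⁻¹ = g := by
      field_simp
    rwa [h4] at h3
  · -- a conic
    right
    have key : ∀ d : E, d ≠ 0 → g / (d ^ 2 * s) ^ 2 ∈ S := by
      intro d hd
      have h1 := hS.of_conic c hc (hsp d hd) (d ^ 2 * s) m (p0 := g * a₀)
        (p1 := d * bf (c i₀) x z) (p2 := d ^ 2 * (qf (c i₀) z + s * bf (c i₀) x w))
        (p3 := d ^ 3 * s * bf (c i₀) z w) (p4 := (d ^ 2 * s) ^ 2 * a₀) hga
        (mul_ne_zero (pow_ne_zero _ (mul_ne_zero (pow_ne_zero _ hd) hs0)) hi₀) hmx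
        (fun i => by
          have h2 := hblin (c i) x z 0 d 0
          rw [zero_smul, add_zero, zero_mul, add_zero] at h2
          rw [h2, hbz i]
          ring)
        (fun i => by
          rw [hsm]
          linear_combination d ^ 2 * hq2 i)
        (fun i => by
          have h2 := hblin (c i) w z 0 d 0
          rw [zero_smul, add_zero, zero_mul, add_zero] at h2
          rw [hbcomm, h2, hbwz i, hbcomm (c i₀) z w]
          ring)
        (fun i => by rw [hmw]; ring)
      have h5 : g * a₀ / ((d ^ 2 * s) ^ 2 * a₀) = g / (d ^ 2 * s) ^ 2 := by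
        rw [mul_div_mul_right _ _ hi₀]
      rwa [h5] at h1
    refine ⟨⟨1 ^ 2 * s, by rw [one_pow, one_mul]; exact hs0, key 1 one_ne_zero⟩, fun d hd => ?_⟩
    have h1 := hS.mul _ _ (key 1 one_ne_zero) (hS.inv _ (key d hd))
    have h2 : g / (1 ^ 2 * s) ^ 2 * (g / (d ^ 2 * s) ^ 2)⁻¹ = d ^ 4 := by
      field_simp
    rwa [h2] at h1

/-- **Norms for intersections of quadrics.** -/
theorem NormSet.of_quads (hE : HasC 3 E) (hns : ∃ h : E, ¬ IsSquare h) {n r : ℕ}
    (h4 : 4 * r ≤ n) (h10 : 10 * r ≤ n + 18) (f : Fin r → MvPolynomial (Fin (n + 1)) E)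
    (hf : ∀ i, (f i).IsHomogeneous 2) {S : Set E} (hS : NormSet f S) (g : E) (hg : g ≠ 0) :
    g ∈ S := by
  have step := fun g hg hsq => hS.quads_step hE h4 h10 f hf g hg hsq
  by_cases hpt : ∃ x : Fin (n + 1) → E, x ≠ 0 ∧ ∀ i, MvPolynomial.aeval x (f i) = 0
  · obtain ⟨x, hx, h⟩ := hpt
    exact hS.of_point hx h g hg
  obtain ⟨h, hh⟩ := hns
  have hh0 : h ≠ 0 := by
    rintro rfl
    exact hh (IsSquare.zero)
  have hsqm : ∀ u : E, u ≠ 0 → ¬ IsSquare (u ^ 2 * h) := by
    rintro u hu ⟨v, hv⟩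
    refine hh ⟨v / u, ?_⟩
    field_simp
    linear_combination hv
  by_cases hall : ∀ g : E, g ≠ 0 → ¬ IsSquare g → g ∈ S
  · by_cases hg2 : IsSquare g
    · obtain ⟨u, rfl⟩ := hg2
      have hu : u ≠ 0 := by
        rintro rfl
        exact hg (mul_zero 0)
      have h1 := hS.mul _ _ (hall _ (mul_ne_zero (pow_ne_zero 2 hu) hh0) (hsqm u hu))
        (hS.inv _ (hall h hh0 hh))
      rwa [mul_inv_cancel_right₀ hh0, sq] at h1
    · exact hall g hg hg2
  push Not at hall
  obtain ⟨g₀, hg₀, hsq₀, hgS⟩ := hall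
  obtain ⟨-, hfour⟩ := ((step g₀ hg₀ hsq₀).resolve_left hpt).resolve_left hgS
  have hone : (1 : E) ∈ S := by
    have := hfour 1 one_ne_zero
    rwa [one_pow] at this
  have hmod : ∀ g : E, g ≠ 0 → ∃ s : E, s ≠ 0 ∧ g / s ^ 2 ∈ S := by
    intro g hg
    by_cases hg2 : IsSquare g
    · obtain ⟨u, rfl⟩ := hg2
      have hu : u ≠ 0 := by
        rintro rfl
        exact hg (mul_zero 0)
      exact ⟨u, hu, by rw [sq, div_self (mul_ne_zero hu hu)]; exact hone⟩
    · rcases (step g hg hg2).resolve_left hpt with h1 | h1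
      · exact ⟨1, one_ne_zero, by rwa [one_pow, div_one]⟩
      · exact h1.1
  obtain ⟨s, hs, h1⟩ := hmod g hg
  obtain ⟨u, hu, h2⟩ := hmod s hs
  have h3 := hS.mul _ _ (hS.mul _ _ h1 (hS.mul _ _ h2 h2)) (hfour u hu)
  have h5 : g / s ^ 2 * (s / u ^ 2 * (s / u ^ 2)) * u ^ 4 = g := by
    field_simp
  rwa [h5] at h3

end main

end ZF
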